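import Pool.Agent.H85.PP.Si

/-!
ROW Pt (project MP_78d38b_PP, about 60 lines): the projection formula (8.4). Use only the STATEMENTS of the imported files.

PROOF. `u = x / y` with `x y : 𝓞 L`, `y ≠ 0` (`IsFractionRing.div_surjective`), `x ≠ 0`. `u * y = x`. `sc x = sc u + sc y`
(`H38T1.sc_mul`), `Algebra.norm K x = Algebra.norm K u * Algebra.norm K y` (`map_mul`; nonzero by `Algebra.norm_ne_zero_iff`), so
`tp w (sc x) C = tp w (sc u) C + tp w (sc y) C` for odd `w` (`H38T1.tp_add_left`; the `w` above the odd `v` are odd by `oddP_dn`) and the same at `v`.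
The index type is finite (`fin_above`), so the finsum is additive (`finsum_add_distrib` or `finsum_eq_sum_of_fintype`,
`Finset.sum_add_distrib`). By `proj_int` for `x` and `y`: the claim (cancel `y`: `add_right_cancel`).
-/

set_option autoImplicit false
set_option linter.unusedSectionVars false
open scoped Classical

open WithZero NumberField IsDedekindDomain H38RT
open H38T1 (SC sc scu rep eo la si Pri OddP tp unif)

namespace H76PP

variable {K L : Type} [Field K] [NumberField K] [Field L] [NumberField L] [Algebra K L]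

/-- (8.4) projection formula for tame symbols -/
theorem proj_tame {v : HeightOneSpectrum (𝓞 K)} (hv : OddP v) {u : L} (hu : u ≠ 0) {c : K}
    (hc : c ≠ 0) {A B : 𝓞 K} {θ : L} (h : Cub K L (A : K) (B : K) θ)
    (hd : 4 * (A : K) ^ 3 + 27 * (B : K) ^ 2 ≠ 0) :
    ∑ᶠ w : {w : HeightOneSpectrum (𝓞 L) // dn K w = v},
      tp w.1 (sc u) (sc (algebraMap K L c)) = tp v (sc (Algebra.norm K u)) (sc c) := by
  obtain ⟨x, y, hy, hxy⟩ := IsFractionRing.div_surjective (A := 𝓞 L) u
  have hy0 : y ≠ 0 := nonZeroDivisors.ne_zero hy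
  have hyL : (y : L) ≠ 0 := by
    intro h0
    exact hy0 (by exact_mod_cast h0)
  have hxy' : u * (y : L) = (x : L) := by
    rw [← hxy]
    exact div_mul_cancel₀ _ hyL
  have hxL : (x : L) ≠ 0 := by
    rw [← hxy']
    exact mul_ne_zero hu hyL
  have hx0 : x ≠ 0 := by
    rintro rfl
    exact hxL (by simp)
  have hNu : Algebra.norm K u ≠ 0 := (Algebra.norm_ne_zero_iff).2 hu
  have hNy : Algebra.norm K (y : L) ≠ 0 := (Algebra.norm_ne_zero_iff).2 hyL
  have h1 := proj_int hv hx0 hc h hd
  have h2 := proj_int hv hy0 hc h hd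
  have hfin : Finite {w : HeightOneSpectrum (𝓞 L) // dn K w = v} := (fin_above v).to_subtype
  have h3 : ∀ w : {w : HeightOneSpectrum (𝓞 L) // dn K w = v},
      tp w.1 (sc (x : L)) (sc (algebraMap K L c)) =
        tp w.1 (sc u) (sc (algebraMap K L c)) + tp w.1 (sc (y : L)) (sc (algebraMap K L c)) := by
    intro w
    have hw : OddP w.1 := by
      rw [oddP_dn (K := K), w.2]
      exact hv
    rw [← H38T1.tp_add_left hw, ← H38T1.sc_mul hu hyL, hxy']
  have h4 : tp v (sc (Algebra.norm K (x : L))) (sc c) =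
      tp v (sc (Algebra.norm K u)) (sc c) + tp v (sc (Algebra.norm K (y : L))) (sc c) := by
    rw [← H38T1.tp_add_left hv, ← H38T1.sc_mul hNu hNy, ← map_mul, hxy']
  rw [finsum_congr h3, finsum_add_distrib (Set.toFinite _) (Set.toFinite _), h4, h2] at h1
  exact add_right_cancel h1

end H76PP
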