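import Pool.Agent.H94.PP.Defs

/-!
helper85 (project MP_28250c_PP, block G, part G4): the generic vector. Among the vectors of a large subspace of `M 0` there is a nonzero
one, `f`, such that `J P f = 0` implies `P f = 0` for every operator `P` of degree `a < T`.
-/

set_option autoImplicit false
open Finset

namespace PPh

open ACpFrege Module

section alg

variable {K : Type} [Field K] {E : Type} [AddCommGroup E] [Module K E]

/-- Rank and nullity of the restriction to a subspace. -/
theorem fr_split [FiniteDimensional K E] (G : Submodule K E) (P : E →ₗ[K] E) :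
    finrank K G = finrank K (G.map P) + finrank K ↥(G ⊓ LinearMap.ker P) := by
  have h := LinearMap.finrank_range_add_finrank_ker (P.domRestrict G)
  rw [LinearMap.range_domRestrict, LinearMap.ker_domRestrict] at h
  have h2 := Submodule.finrank_map_subtype_eq G ((LinearMap.ker P).comap G.subtype)
  rw [Submodule.map_comap_subtype] at h2
  omega

/-- The operators of `A` which vanish on `F`. -/
def van (A : Submodule K (E →ₗ[K] E)) (F : Submodule K E) : Submodule K (E →ₗ[K] E) where
  carrier := {P | P ∈ A ∧ ∀ f ∈ F, P f = 0}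
  add_mem' := by
    rintro P Q ⟨hP, hP'⟩ ⟨hQ, hQ'⟩
    exact ⟨A.add_mem hP hQ, fun f hf => by rw [LinearMap.add_apply, hP' f hf, hQ' f hf, add_zero]⟩
  zero_mem' := ⟨A.zero_mem, fun f _ => rfl⟩
  smul_mem' := by
    rintro c P ⟨hP, hP'⟩
    exact ⟨A.smul_mem c hP, fun f hf => by rw [LinearMap.smul_apply, hP' f hf, smul_zero]⟩

theorem van_le (A : Submodule K (E →ₗ[K] E)) (F : Submodule K E) : van A F ≤ A := fun _ h => h.1

theorem van_anti (A : Submodule K (E →ₗ[K] E)) {F F' : Submodule K E} (h : F' ≤ F) : van A F ≤ van A F' :=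
  fun _ hP => ⟨hP.1, fun f hf => hP.2 f (h hf)⟩

end alg

section core

variable {p : ℕ} [Fact p.Prime] {E : Type} [AddCommGroup E] [Module (ZMod p) E] [FiniteDimensional (ZMod p) E]

/-- The linear algebra core. -/
theorem generic_core (J : E →ₗ[ZMod p] E) (A : ℕ → Submodule (ZMod p) (E →ₗ[ZMod p] E)) (F0 : Submodule (ZMod p) E)
    (T kap del : ℕ) (hdel : ∀ a < T, finrank (ZMod p) (A a) ≤ del)
    (hk : ∀ a < T, ∀ P ∈ A a, ∀ F : Submodule (ZMod p) E, F ≤ F0 →
      finrank (ZMod p) ↥(F ⊓ LinearMap.ker (J * P)) ≤ finrank (ZMod p) ↥(F ⊓ LinearMap.ker P) + kap)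
    (hd : (kap + del + T) * T * del < finrank (ZMod p) F0) :
    ∃ f ∈ F0, f ≠ 0 ∧ ∀ a < T, ∀ P ∈ A a, J (P f) = 0 → P f = 0 := by
  classical
  set k2 := kap + del + T with hk2
  let ann : Submodule (ZMod p) E → ℕ := fun F => ∑ a ∈ range T, finrank (ZMod p) (van (A a) F)
  have hann : ∀ F, ann F ≤ T * del := by
    intro F
    calc ann F ≤ ∑ a ∈ range T, del := Finset.sum_le_sum fun a ha =>
          (Submodule.finrank_mono (van_le (A a) F)).trans (hdel a (mem_range.1 ha))
      _ = T * del := by simp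
  let S : Set (Submodule (ZMod p) E) := {F | F ≤ F0 ∧ finrank (ZMod p) F0 ≤ finrank (ZMod p) F + k2 * ann F}
  have hS : S.Nonempty := ⟨F0, le_refl _, Nat.le_add_right _ _⟩
  obtain ⟨F, ⟨hF0, hF⟩, hmin⟩ := (measure fun F : Submodule (ZMod p) E => finrank (ZMod p) F).wf.has_min S hS
  have hmin' : ∀ F' ∈ S, ¬ finrank (ZMod p) F' < finrank (ZMod p) F := hmin
  have hFpos : 0 < finrank (ZMod p) F := by
    have h1 : k2 * ann F ≤ k2 * (T * del) := Nat.mul_le_mul_left _ (hann F)
    have h2 : k2 * (T * del) = k2 * T * del := by ring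
    omega
  -- the rank of every operator which does not vanish on `F` is large
  have hrk : ∀ a < T, ∀ P ∈ A a, (¬ ∀ f ∈ F, P f = 0) → finrank (ZMod p) ↥(F ⊓ LinearMap.ker P) + k2 < finrank (ZMod p) F := by
    intro a ha P hP hne
    by_contra hcon
    push Not at hcon
    have hlt : F ⊓ LinearMap.ker P < F := by
      refine lt_of_le_of_ne inf_le_left fun h => hne fun f hf => ?_
      rw [← h] at hf
      exact LinearMap.mem_ker.1 hf.2
    have hann1 : ann F + 1 ≤ ann (F ⊓ LinearMap.ker P) := by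
      have : ann F < ann (F ⊓ LinearMap.ker P) := by
        refine Finset.sum_lt_sum (fun b _ => Submodule.finrank_mono (van_anti (A b) inf_le_left)) ⟨a, mem_range.2 ha, ?_⟩
        refine Submodule.finrank_lt_finrank_of_lt (lt_of_le_of_ne (van_anti (A a) inf_le_left) fun h => hne ?_)
        have hPm : P ∈ van (A a) (F ⊓ LinearMap.ker P) := ⟨hP, fun f hf => LinearMap.mem_ker.1 hf.2⟩
        rw [← h] at hPm
        exact hPm.2
      exact this
    have hmem : F ⊓ LinearMap.ker P ∈ S := by
      refine ⟨inf_le_left.trans hF0, ?_⟩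
      have h3 : k2 * (ann F + 1) ≤ k2 * ann (F ⊓ LinearMap.ker P) := Nat.mul_le_mul_left _ hann1
      have h4 : k2 * (ann F + 1) = k2 * ann F + k2 := by ring
      omega
    exact hmin' _ hmem (Submodule.finrank_lt_finrank_of_lt hlt)
  -- counting
  haveI : Finite E := Module.finite_of_finite (ZMod p)
  haveI : Fintype E := Fintype.ofFinite E
  haveI : Finite (E →ₗ[ZMod p] E) := Module.finite_of_finite (ZMod p)
  haveI : Fintype (E →ₗ[ZMod p] E) := Fintype.ofFinite _
  have hp2 : 2 ≤ p := (Fact.out : p.Prime).two_le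
  have hcard : ∀ G : Submodule (ZMod p) E, (univ.filter fun f : E => f ∈ G).card = p ^ finrank (ZMod p) G := by
    intro G
    have h1 := Module.card_eq_pow_finrank (K := ZMod p) (V := G)
    rw [ZMod.card] at h1
    rw [← h1, Fintype.card_subtype]
  have hcardA : ∀ G : Submodule (ZMod p) (E →ₗ[ZMod p] E), (univ.filter fun f : E →ₗ[ZMod p] E => f ∈ G).card =
      p ^ finrank (ZMod p) G := by
    intro G
    have h1 := Module.card_eq_pow_finrank (K := ZMod p) (V := G)
    rw [ZMod.card] at h1
    rw [← h1, Fintype.card_subtype]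
  let pairs : ℕ → Finset (E →ₗ[ZMod p] E) := fun a => univ.filter fun P => P ∈ A a ∧ ¬ ∀ f ∈ F, P f = 0
  let bad : Finset E := (range T).biUnion fun a => (pairs a).biUnion fun P => univ.filter fun f => f ∈ F ∧ J (P f) = 0
  suffices h : ∃ f ∈ F, f ≠ 0 ∧ f ∉ bad by
    obtain ⟨f, hf, hf0, hfb⟩ := h
    refine ⟨f, hF0 hf, hf0, fun a ha P hP hJ => ?_⟩
    by_contra hne
    refine hfb (mem_biUnion.2 ⟨a, mem_range.2 ha, mem_biUnion.2 ⟨P, ?_, ?_⟩⟩)
    · exact mem_filter.2 ⟨mem_univ _, hP, fun h => hne (h f hf)⟩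
    · exact mem_filter.2 ⟨mem_univ _, hf, hJ⟩
  by_cases hex : ∃ a, a < T ∧ (pairs a).Nonempty
  · obtain ⟨a, ha, P, hP⟩ := hex
    have hP' := (mem_filter.1 hP).2
    have h1 := hrk a ha P hP'.1 hP'.2
    have hdF : del + T + 1 ≤ finrank (ZMod p) F := by omega
    have hb : bad.card ≤ T * (p ^ del * p ^ (finrank (ZMod p) F - (del + T + 1))) := by
      refine card_biUnion_le_card_mul _ _ _ (fun b hb => ?_) |>.trans (by rw [card_range])
      refine (card_biUnion_le_card_mul _ _ (p ^ (finrank (ZMod p) F - (del + T + 1))) (fun Q hQ => ?_)).trans ?_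
      · have hQ' := (mem_filter.1 hQ).2
        have h2 := hrk b (mem_range.1 hb) Q hQ'.1 hQ'.2
        have h3 := hk b (mem_range.1 hb) Q hQ'.1 F hF0
        have h4 : (univ.filter fun f : E => f ∈ F ∧ J (Q f) = 0) = univ.filter fun f : E => f ∈ F ⊓ LinearMap.ker (J * Q) := by
          ext f
          simp [Submodule.mem_inf]
        rw [h4, hcard]
        exact Nat.pow_le_pow_right (by omega) (by omega)
      · refine Nat.mul_le_mul_right _ ?_
        calc (pairs b).card ≤ (univ.filter fun f : E →ₗ[ZMod p] E => f ∈ A b).card :=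
              card_le_card fun Q hQ => mem_filter.2 ⟨mem_univ _, (mem_filter.1 hQ).2.1⟩
          _ = p ^ finrank (ZMod p) (A b) := hcardA _
          _ ≤ p ^ del := Nat.pow_le_pow_right (by omega) (hdel b (mem_range.1 hb))
    have hb2 : (insert 0 bad).card < p ^ finrank (ZMod p) F := by
      have e1 : p ^ del * p ^ (finrank (ZMod p) F - (del + T + 1)) = p ^ (finrank (ZMod p) F - (T + 1)) := by
        rw [← pow_add]
        congr 1
        omega
      have e2 : p ^ finrank (ZMod p) F = p ^ T * (p ^ (finrank (ZMod p) F - (T + 1)) * p) := by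
        rw [← pow_succ, ← pow_add]
        congr 1
        omega
      have e3 : T + 1 ≤ p ^ T := by
        calc T + 1 ≤ 2 ^ T := Nat.lt_two_pow_self
          _ ≤ p ^ T := Nat.pow_le_pow_left hp2 T
      have e4 : 1 ≤ p ^ (finrank (ZMod p) F - (T + 1)) := Nat.one_le_pow _ _ (by omega)
      rw [e1] at hb
      set w := p ^ (finrank (ZMod p) F - (T + 1)) with hw
      calc (insert 0 bad).card ≤ bad.card + 1 := card_insert_le _ _
        _ ≤ T * w + w := by omega
        _ = (T + 1) * w := by ring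
        _ ≤ p ^ T * w := Nat.mul_le_mul_right _ e3
        _ < p ^ T * (w * p) := by
            refine Nat.mul_lt_mul_of_pos_left ?_ (Nat.pow_pos (by omega))
            nlinarith
        _ = p ^ finrank (ZMod p) F := e2.symm
    rw [← hcard F] at hb2
    obtain ⟨f, hf, hfn⟩ := exists_mem_notMem_of_card_lt_card hb2
    rw [mem_insert, not_or] at hfn
    exact ⟨f, (mem_filter.1 hf).2, hfn.1, hfn.2⟩
  · push Not at hex
    have hbad : bad = ∅ := by
      rw [← Finset.not_nonempty_iff_eq_empty]
      rintro ⟨f, hf⟩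
      obtain ⟨a, ha, hf⟩ := mem_biUnion.1 hf
      obtain ⟨P, hP, _⟩ := mem_biUnion.1 hf
      have := hex a (mem_range.1 ha)
      rw [this] at hP
      exact absurd hP (notMem_empty _)
    obtain ⟨f, hf, hf0⟩ := (Submodule.ne_bot_iff F).1 (fun h => by rw [h, finrank_bot] at hFpos; omega)
    exact ⟨f, hf, hf0, by rw [hbad]; exact notMem_empty _⟩

end core

section gm

variable {K : Type} [Field K] {E : Type} [AddCommGroup E] [Module K E] {n : ℕ}

theorem Gm.pow_mem (g : Gm K E n) (k j : ℕ) (m : E) (hm : m ∈ g.M j) : (g.J ^ k) m ∈ g.M (j + k) := by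
  induction k with
  | zero => simpa using hm
  | succ k ih =>
    rw [pow_succ', Module.End.mul_apply]
    exact g.mapJ _ _ ih

theorem Gm.list_mem (g : Gm K E n) (l : List (Fin n)) (j : ℕ) (m : E) (hm : m ∈ g.M j) : (l.map g.X).prod m ∈ g.M (j + l.length) := by
  induction l with
  | nil => simpa using hm
  | cons i l ih =>
    rw [List.map_cons, List.prod_cons, Module.End.mul_apply, List.length_cons, ← add_assoc]
    exact g.mapX _ _ _ ih

/-- An operator of degree `a` maps `M j` to `M (j + a)`. -/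
theorem Gm.Op_mem (g : Gm K E n) (a j : ℕ) (P : E →ₗ[K] E) (hP : P ∈ g.Op a) (m : E) (hm : m ∈ g.M j) : P m ∈ g.M (j + a) := by
  induction hP using Submodule.span_induction with
  | mem P hP =>
    obtain ⟨S, hS, rfl⟩ := hP
    rw [Module.End.mul_apply]
    have h1 := g.list_mem (S.sort (· ≤ ·)) j m hm
    rw [Finset.length_sort] at h1
    have h2 := g.pow_mem (a - S.card) _ _ h1
    rwa [add_assoc, Nat.add_sub_cancel' hS] at h2
  | zero => rw [LinearMap.zero_apply]; exact Submodule.zero_mem _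
  | add P Q _ _ h1 h2 => rw [LinearMap.add_apply]; exact Submodule.add_mem _ h1 h2
  | smul c P _ h1 => rw [LinearMap.smul_apply]; exact Submodule.smul_mem _ _ h1

end gm

/-- **G4.** A large subspace of `M 0` contains a nonzero vector `f` such that `J P f = 0` implies `P f = 0` for all operators `P` of
degree less than `T`. -/
theorem generic {p : ℕ} [Fact p.Prime] {E : Type} [AddCommGroup E] [Module (ZMod p) E] [FiniteDimensional (ZMod p) E] {n : ℕ}
    (g : Gm (ZMod p) E n) (F0 : Submodule (ZMod p) E) (hF0 : F0 ≤ g.M 0) (T kap del : ℕ)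
    (hdel : ∀ a < T, finrank (ZMod p) (g.Op a) ≤ del)
    (hkap : ∀ a < T, finrank (ZMod p) ↥(g.M a ⊓ LinearMap.ker g.J) ≤ kap)
    (hd : (kap + del + T) * T * del < finrank (ZMod p) F0) :
    ∃ f ∈ F0, f ≠ 0 ∧ ∀ a < T, ∀ P ∈ g.Op a, g.J (P f) = 0 → P f = 0 := by
  refine generic_core g.J g.Op F0 T kap del hdel (fun a ha P hP F hF => ?_) hd
  have h1 := fr_split (F ⊓ LinearMap.ker (g.J * P)) P
  have h2 : (F ⊓ LinearMap.ker (g.J * P)).map P ≤ g.M a ⊓ LinearMap.ker g.J := by
    rintro _ ⟨f, hf, rfl⟩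
    refine ⟨?_, ?_⟩
    · have := g.Op_mem a 0 P hP f (hF0 (hF hf.1))
      rwa [zero_add] at this
    · exact hf.2
  have h3 : finrank (ZMod p) ↥((F ⊓ LinearMap.ker (g.J * P)) ⊓ LinearMap.ker P) ≤ finrank (ZMod p) ↥(F ⊓ LinearMap.ker P) :=
    Submodule.finrank_mono (inf_le_inf_right _ inf_le_left)
  have h4 := (Submodule.finrank_mono h2).trans (hkap a ha)
  omega

end PPh
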