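import Pool.Agent.H38.T1.Ea
import Pool.Agent.H88.T7.Un

/-!
MP_78d38b_PP, block R2: reciprocity for tame symbols (8.6) (no row, proved).
-/

set_option autoImplicit false
set_option linter.unusedSectionVars false
open scoped Classical

open WithZero NumberField IsDedekindDomain H38RT
open H38T1 (SC sc scu rep eo la si Pri ka OddP tp unif)

namespace H76PP

/-- (8.6) reciprocity, from `H88T7.recip7` -/
theorem rec_tame {F : Type} [Field F] [NumberField F] {x y : F} (hx : x ≠ 0) (hy : y ≠ 0)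
    (h2 : ∀ v : HeightOneSpectrum (𝓞 F), v.valuation F 2 < 1 → ∃ m : F, m ≠ 0 ∧
      v.valuation F (y * m ^ 2 - 1) ≤ v.valuation F 8) (hr : ∀ s : F →+* ℝ, 0 < s y) :
    ∑ᶠ v : HeightOneSpectrum (𝓞 F), (if OddP v then tp v (sc x) (sc y) else 0) = 0 := by
  have h20 : (2 : F) ≠ 0 := two_ne_zero
  have hform : ∀ v : HeightOneSpectrum (𝓞 F), v.valuation F 2 < 1 → ∃ m e : F, m ≠ 0 ∧
      v.valuation F e ≤ 1 ∧ y = m ^ 2 * ((1 : F) ^ 2 - 4 * (-2 * e)) := by
    intro v hv
    obtain ⟨m, hm, h⟩ := h2 v hv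
    refine ⟨m⁻¹, (y * m ^ 2 - 1) / 8, inv_ne_zero hm, ?_, ?_⟩
    · have h8 : v.valuation F 8 ≠ 0 := by
        rw [Ne, map_eq_zero]
        norm_num
      rw [map_div₀]
      exact div_le_one_of_le₀ h zero_le
    · field_simp
      ring
  have hp : ∀ v : HeightOneSpectrum (𝓞 F), ¬ OddP v → Pri v (sc y) ∧ ka v (sc y) = 0 := by
    intro v hv
    have hv2 := H38T1.not_oddP.1 hv
    obtain ⟨m, e, hm, he, hye⟩ := hform v hv2
    have hc : v.valuation F (-2 * e) < 1 := by
      rw [map_mul, Valuation.map_neg]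
      exact mul_lt_one_of_nonneg_of_lt_one_left zero_le hv2 he
    have hP : Prm (v.valuation F) y := ⟨m, 1, -2 * e, hm, map_one _, hc.le, hye⟩
    refine ⟨(H38T1.pri_sc hv hy).2 hP, ?_⟩
    obtain ⟨q, d, ψ, hl⟩ := H38T1.loc_of v
    rw [H38T1.ka_sc hv hy hP, kp_eq hl hv2 h20 hm (map_one _) hc.le hye]
    unfold kap
    rw [if_pos ⟨0, by simpa using hc⟩]
  have hsi : ∀ w : F →+* ℝ, si w (sc y) = 0 := by
    intro w
    rw [H38T1.si_sc w hy]
    unfold sw
    rw [if_neg (not_lt.2 (hr w).le)]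
  set T : Finset (HeightOneSpectrum (𝓞 F)) :=
    (fin_bad hx).toFinset ∪ ((fin_bad hy).toFinset ∪ (fin_bad h20).toFinset) with hT
  have hmem : ∀ v, v ∉ T → v.valuation F x = 1 ∧ v.valuation F y = 1 ∧
      v.valuation F 2 = 1 := by
    intro v hv
    rw [hT, Finset.mem_union, Finset.mem_union, not_or, not_or] at hv
    refine ⟨?_, ?_, ?_⟩
    · by_contra h
      exact hv.1 (by simpa using h)
    · by_contra h
      exact hv.2.1 (by simpa using h)
    · by_contra h
      exact hv.2.2 (by simpa using h)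
  have heo : ∀ v, v ∉ T → eo v (sc x) = 0 ∧ eo v (sc y) = 0 := by
    intro v hv
    obtain ⟨h1, h3, -⟩ := hmem v hv
    rw [H38T1.eo_sc hx, H38T1.eo_sc hy]
    unfold ord
    rw [h1, h3]
    simp
  have key := H88T7.recip_sc7 (c := sc x) (c' := sc y) T (by
    intro v hv
    by_contra h
    exact hv (hmem v h).2.2) (fun v hv => (heo v hv).1) (fun v hv => (heo v hv).2)
    (fun v hv => (hp v hv).1)
  rw [Finset.sum_eq_zero (s := (Finset.univ : Finset (F →+* ℝ))) (f := fun w =>
    si w (sc x) * si w (sc y)) (fun w _ => by rw [hsi w, mul_zero]), add_zero] at key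
  rw [finsum_eq_sum_of_support_subset (s := T)]
  · refine Eq.trans (Finset.sum_congr rfl fun v _ => ?_) key
    by_cases hv : OddP v
    · simp only [if_pos hv]
    · simp only [if_neg hv]
      rw [(hp v hv).2, mul_zero]
  · intro v hv
    by_contra h
    apply hv
    obtain ⟨h1, h3⟩ := heo v h
    have : tp v (sc x) (sc y) = 0 := by
      unfold tp
      rw [h1, h3]
      ring
    change (if OddP v then tp v (sc x) (sc y) else 0) = 0
    rw [this, ite_self]

end H76PP
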