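import Mathlib

/-!
ROW Sa (project MP_78d38b_PP, about 80 lines, Mathlib only): the Legendre class in finite fields.

PROOF. `k` finite field with `2 ≠ 0`. `ringChar k ≠ 2`. `FiniteField.isSquare_iff (hF : ringChar F ≠ 2) (ha : a ≠ 0) :
IsSquare a ↔ a ^ (Fintype.card F / 2) = 1`, `FiniteField.pow_dichotomy : a ^ (card / 2) = 1 ∨ = -1`, `-1 ≠ 1`.
leg_mul: four cases. If both are squares the product is; if exactly one is a square the product is not (divide); if both
are nonsquares, `a^(q/2) = -1`, `b^(q/2) = -1`, so `(ab)^(q/2) = 1`. In `ZMod 2`: `1 + 1 = 0` by `decide`.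
leg_norm: `N = Algebra.norm k : k' → k` is multiplicative, `N x ≠ 0` (`Algebra.norm_ne_zero_iff`). If `x` is a square so is `N x`.
Suppose `x` is not a square and `N x` is a square. For every `y ≠ 0` in `k'`: `y` or `y x` is a square (leg_mul in `k'`; `2 ≠ 0` in `k'`
since `algebraMap` is injective), so `N y` is a square (`N (y x) = N y * N x`, `leg_mul`). But `N` is surjective
(`FiniteField.norm_surjective`, in Mathlib.FieldTheory.Finite.GaloisField; check the name with `#check`) and `k` has a nonsquare
(`FiniteField.exists_nonsquare`). Contradiction. `Module.Finite k k'` holds as `k'` is finite (`Module.Finite.of_finite`/`inferInstance`).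
leg_prod: induction on the finset with leg_mul (`Finset.prod_ne_zero_iff`); `leg 1 = 0`.
leg_equiv: `IsSquare` is transported by a multiplicative equivalence (`IsSquare.map`, and its inverse).
-/

set_option autoImplicit false
open scoped Classical

namespace H76PP

/-- The Legendre class: zero for squares and one otherwise. -/
noncomputable def leg {R : Type*} [Mul R] (x : R) : ZMod 2 := if IsSquare x then 0 else 1

theorem Sa_ring {k : Type*} [Field k] (h2 : (2 : k) ≠ 0) : ringChar k ≠ 2 := by
  intro h
  apply h2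
  have h1 := ringChar.Nat.cast_ringChar (R := k)
  rw [h] at h1
  exact_mod_cast h1

theorem leg_mul {k : Type*} [Field k] [Finite k] (h2 : (2 : k) ≠ 0) {x y : k} (hx : x ≠ 0)
    (hy : y ≠ 0) : leg (x * y) = leg x + leg y := by
  have hf : Fintype k := Fintype.ofFinite k
  have hF := Sa_ring h2
  have hxy : x * y ≠ 0 := mul_ne_zero hx hy
  have h11 : (-1 : k) ≠ 1 := Ring.neg_one_ne_one_of_char_ne_two hF
  have key : ∀ z : k, z ≠ 0 → (z ^ (Fintype.card k / 2) = 1 ∧ leg z = 0) ∨ (z ^ (Fintype.card k / 2) = -1 ∧ leg z = 1) := by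
    intro z hz
    rcases FiniteField.pow_dichotomy hF hz with h | h
    · left
      refine ⟨h, ?_⟩
      unfold leg
      rw [if_pos ((FiniteField.isSquare_iff hF hz).2 h)]
    · right
      refine ⟨h, ?_⟩
      unfold leg
      rw [if_neg]
      intro hs
      rw [FiniteField.isSquare_iff hF hz, h] at hs
      exact h11 hs
  have hm := mul_pow x y (Fintype.card k / 2)
  rcases key x hx with ⟨a1, a2⟩ | ⟨a1, a2⟩ <;> rcases key y hy with ⟨b1, b2⟩ | ⟨b1, b2⟩ <;>
    rcases key (x * y) hxy with ⟨c1, c2⟩ | ⟨c1, c2⟩ <;> rw [a1, b1, c1] at hm <;> rw [a2, b2, c2]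
  · rfl
  · exact absurd (by simpa using hm) h11
  · exact absurd (by simpa using hm.symm) h11
  · rfl
  · exact absurd (by simpa using hm.symm) h11
  · rfl
  · rfl
  · exact absurd (by simpa using hm) h11

theorem leg_norm {k k' : Type*} [Field k] [Field k'] [Finite k] [Finite k'] [Algebra k k']
    (h2 : (2 : k) ≠ 0) {x : k'} (hx : x ≠ 0) : leg (Algebra.norm k x) = leg x := by
  have hfin : Module.Finite k k' := Module.Finite.of_finite
  have h2' : (2 : k') ≠ 0 := by
    have h3 := (map_ne_zero (algebraMap k k')).2 h2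
    rwa [map_ofNat] at h3
  have hN : ∀ y : k', y ≠ 0 → Algebra.norm k y ≠ 0 := fun y hy => Algebra.norm_ne_zero_iff.2 hy
  have hsq : ∀ y : k', IsSquare y → IsSquare (Algebra.norm k y) := fun y hy => hy.map _
  by_cases hxs : IsSquare x
  · unfold leg
    rw [if_pos hxs, if_pos (hsq x hxs)]
  · have hlx : leg x = 1 := by
      unfold leg
      rw [if_neg hxs]
    by_cases hns : IsSquare (Algebra.norm k x)
    · exfalso
      obtain ⟨a, ha⟩ := FiniteField.exists_nonsquare (Sa_ring h2)
      obtain ⟨y, hy⟩ := FiniteField.norm_surjective k k' a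
      have hy0 : y ≠ 0 := by
        rintro rfl
        apply ha
        rw [← hy, Algebra.norm_zero]
        exact ⟨0, by simp⟩
      have hys : ¬ IsSquare y := fun h => ha (hy ▸ hsq y h)
      have hly : leg y = 1 := by
        unfold leg
        rw [if_neg hys]
      have h3 := leg_mul h2' hy0 hx
      rw [hlx, hly] at h3
      have h4 : IsSquare (y * x) := by
        by_contra hc
        unfold leg at h3
        rw [if_neg hc] at h3
        exact absurd h3 (by decide)
      have h5 := hsq _ h4
      rw [map_mul] at h5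
      have h6 := leg_mul h2 (hN y hy0) (hN x hx)
      unfold leg at h6
      rw [if_pos h5, if_pos hns, hy, if_neg ha] at h6
      exact absurd h6 (by decide)
    · rw [hlx]
      unfold leg
      rw [if_neg hns]

theorem leg_prod {k : Type*} [Field k] [Finite k] (h2 : (2 : k) ≠ 0) {ι : Type*} (s : Finset ι)
    (f : ι → k) (hf : ∀ i ∈ s, f i ≠ 0) : leg (∏ i ∈ s, f i) = ∑ i ∈ s, leg (f i) := by
  induction s using Finset.induction_on with
  | empty =>
    rw [Finset.prod_empty, Finset.sum_empty]
    unfold leg
    rw [if_pos ⟨1, by simp⟩]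
  | insert i s hi ih =>
    rw [Finset.prod_insert hi, Finset.sum_insert hi, leg_mul h2 (hf i (Finset.mem_insert_self _ _))
      (Finset.prod_ne_zero_iff.2 fun j hj => hf j (Finset.mem_insert_of_mem hj)),
      ih fun j hj => hf j (Finset.mem_insert_of_mem hj)]

theorem leg_equiv {R S : Type*} [Mul R] [Mul S] (e : R ≃* S) (x : R) : leg (e x) = leg x := by
  have h : IsSquare (e x) ↔ IsSquare x := by
    constructor
    · rintro ⟨y, hy⟩
      refine ⟨e.symm y, e.injective ?_⟩
      rw [map_mul, e.apply_symm_apply, hy]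
    · rintro ⟨y, hy⟩
      exact ⟨e y, by rw [← map_mul, hy]⟩
  unfold leg
  by_cases hx : IsSquare x
  · rw [if_pos hx, if_pos (h.2 hx)]
  · rw [if_neg hx, if_neg (mt h.1 hx)]

end H76PP
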