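import Pool.Agent.H85.PP.Sa

/-!
ROW Sb (project MP_78d38b_PP, about 130 lines): the Legendre class of the norm of a unit of a finite reduced algebra. Use only
the STATEMENTS of Sa.

PROOF. `R` is Artinian (finite over the field `k`), `IsArtinianRing.equivPi R : R ≃ₐ[R] ∀ I : MaximalSpectrum R, R ⧸ I.asIdeal`,
`IsArtinianRing.equivPi_apply`; `MaximalSpectrum R` is finite (instance for Artinian rings; `Fintype.ofFinite`). Every `R ⧸ I.asIdeal`
is a field (`Ideal.Quotient.field` with `I.isMaximal`, use `letI`; be careful that the ring structure is the one of the quotient) and finite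
dimensional over `k`, hence finite (`Module.finite_of_finite k`; or: `R` itself is finite: `Module.finite_of_finite k`, so all quotients
are finite). (1) `Algebra.norm k x = ∏ I, Algebra.norm k (Ideal.Quotient.mk I.asIdeal x)`: by `Algebra.norm_eq_of_algEquiv` applied to the
restriction of scalars `(IsArtinianRing.equivPi R).restrictScalars k` it suffices: for a finite family of finite dimensional
commutative `k`-algebras `A i` and `y : ∀ i, A i`: `Algebra.norm k y = ∏ i, Algebra.norm k (y i)` (norm_pi below). Proof of norm_pi: take the basis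
`Pi.basis (fun i => Module.Free.chooseBasis k (A i))`; in this basis the matrix of the multiplication by `y` is
`Matrix.blockDiagonal' (fun i => Algebra.leftMulMatrix (b i) (y i))` (entries: `Algebra.leftMulMatrix_eq_repr_mul`, `Pi.basis_apply`,
`Pi.basis_repr`, `Pi.single`), and `Matrix.det_blockDiagonal'`, `Algebra.norm_eq_matrix_det`.
(Model: the proof of `LinearMap.det_pi` in Mathlib.LinearAlgebra.Determinant.)
(2) `x` is a unit, so its images are units, so nonzero, the norms are nonzero (`Algebra.norm_ne_zero_iff` or: the norm of a unit is a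
unit, `IsUnit.map`), and `leg_prod`, `leg_norm` give the claim; `finsum_eq_sum_of_fintype`.
-/

set_option autoImplicit false
open scoped Classical

namespace H76PP

theorem Sb_dec {k n : Type} [Field k] [Fintype n] (M : Matrix n n k) (i j : DecidableEq n) :
    @Matrix.det n i _ k _ M = @Matrix.det n j _ k _ M := by
  rw [Subsingleton.elim i j]

theorem Sb_dec2 {k : Type} [Field k] {ι : Type} {m : ι → Type}
    (d : ∀ i, Matrix (m i) (m i) k) (i j : DecidableEq ι) :
    @Matrix.blockDiagonal' ι m m k i _ d = @Matrix.blockDiagonal' ι m m k j _ d := by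
  rw [Subsingleton.elim i j]

theorem Sb_det {k : Type} [Field k] {ι : Type} [Fintype ι] {m : ι → Type} [∀ i, Fintype (m i)]
    (d : ∀ i, Matrix (m i) (m i) k) :
    (Matrix.blockDiagonal' d).det = ∏ i, (d i).det := by
  let _ : LinearOrder ι := LinearOrder.lift' (Fintype.equivFin ι) (Fintype.equivFin ι).injective
  have h0 := (Matrix.blockTriangular_blockDiagonal' d).det_fintype
  have h1 := Sb_dec2 d (fun a b => Classical.propDecidable (a = b))
    (fun a b => LinearOrder.toDecidableEq a b)
  rw [h1]
  refine (Sb_dec _ _ _).trans (h0.trans ?_)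
  refine Finset.prod_congr rfl fun i _ => ?_
  rw [← Matrix.det_submatrix_equiv_self (Equiv.sigmaSubtype i).symm]
  refine (congrArg _ ?_).trans (Sb_dec _ _ _)
  ext a c
  exact Matrix.blockDiagonal'_apply_eq d i a c

theorem norm_pi {k : Type} [Field k] {ι : Type} [Fintype ι] {A : ι → Type} [∀ i, CommRing (A i)]
    [∀ i, Algebra k (A i)] [∀ i, Module.Finite k (A i)] (y : ∀ i, A i) :
    Algebra.norm k y = ∏ i, Algebra.norm k (y i) := by
  let b := fun i => Module.Free.chooseBasis k (A i)
  let B := Pi.basis b
  rw [Algebra.norm_eq_matrix_det B]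
  have h1 : Algebra.leftMulMatrix B y =
      Matrix.blockDiagonal' (fun i => Algebra.leftMulMatrix (b i) (y i)) := by
    ext ⟨i₁, i₂⟩ ⟨j₁, j₂⟩
    rw [Algebra.leftMulMatrix_eq_repr_mul, Matrix.blockDiagonal'_apply]
    unfold B
    rw [Pi.basis_repr, Pi.basis_apply]
    show (b i₁).repr (y i₁ * Pi.single (M := A) j₁ (b j₁ j₂) i₁) i₂ = _
    by_cases h : i₁ = j₁
    · subst h
      rw [dif_pos rfl, Pi.single_eq_same, cast_eq, Algebra.leftMulMatrix_eq_repr_mul]
    · rw [dif_neg h, Pi.single_eq_of_ne h, mul_zero, map_zero, Finsupp.coe_zero, Pi.zero_apply]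
  rw [h1, Sb_det]
  refine Finset.prod_congr rfl fun i _ => ?_
  rw [Algebra.norm_eq_matrix_det (b i)]

theorem leg_max {k R : Type} [Field k] [Finite k] [CommRing R] [Algebra k R] [Module.Finite k R]
    [IsReduced R] (h2 : (2 : k) ≠ 0) {x : R} (hx : IsUnit x) :
    leg (Algebra.norm k x) = ∑ᶠ M : MaximalSpectrum R, leg (Ideal.Quotient.mk M.asIdeal x) := by
  have hart : IsArtinianRing R := isArtinian_of_tower k inferInstance
  have hfR : Finite R := Module.finite_of_finite k
  have hft : Fintype (MaximalSpectrum R) := Fintype.ofFinite _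
  have h1 : Algebra.norm k x =
      ∏ I : MaximalSpectrum R, Algebra.norm k (Ideal.Quotient.mk I.asIdeal x) := by
    have h2 := Algebra.norm_eq_of_algEquiv ((IsArtinianRing.equivPi R).restrictScalars k) x
    rw [← h2, norm_pi]
    refine Finset.prod_congr rfl fun I _ => ?_
    rfl
  have hu : ∀ I : MaximalSpectrum R, IsUnit (Ideal.Quotient.mk I.asIdeal x) := fun I => hx.map _
  rw [h1, leg_prod h2 Finset.univ _ (fun I _ => ((hu I).map (Algebra.norm k)).ne_zero),
    finsum_eq_sum_of_fintype]
  refine Finset.sum_congr rfl fun I _ => ?_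
  have hfin : Finite (R ⧸ I.asIdeal) :=
    Finite.of_surjective (Ideal.Quotient.mk I.asIdeal) Ideal.Quotient.mk_surjective
  let _ : Field (R ⧸ I.asIdeal) := @Ideal.Quotient.field R _ I.asIdeal I.isMaximal
  exact leg_norm (k := k) (k' := R ⧸ I.asIdeal) h2 (hu I).ne_zero

end H76PP
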