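import Mathlib

/-!
ROW Sc (project MP_78d38b_PP, about 140 lines, Mathlib only): the algebra `k[T]/(T^3 + a T + b)`.

PROOF. basis: the three elements `1, t, t^2` span `R` over `k` (hs) and `finrank = 3`, so they are a basis
(`basisOfTopLeSpanOfCardEqFinrank`, `coe_basisOfTopLeSpanOfCardEqFinrank`; the algebra maps are `Algebra.smul_def`). So the coordinates
are unique. The matrix of the multiplication by `x = c₀ + c₁ t + c₂ t^2` in this basis has as columns the coordinates of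
`x`, `x t = -b c₂ + (c₀ - a c₂) t + c₁ t^2`, `x t^2 = -b c₁ + (-a c₁ - b c₂) t + (c₀ - a c₂) t^2` (use `t^3 = -a t - b`).
`Algebra.leftMulMatrix_eq_repr_mul`, `Algebra.norm_eq_matrix_det`, `Algebra.trace_eq_matrix_trace`. (MODEL: the file
`Pool/Agent/H76/PP/E0.lean` contains exactly this for a field `R = L`: `Cub.basis`, `Cub.co`, `Cub.co_mul`, `Cub.leftMul`,
`Cub.trace`, `Cub.norm`; copy it with the structure below in place of `Cub`.)
alg_trace: trace = `3 c₀ - 2 a c₂`.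
alg_red: `isReduced_iff` / `⟨fun x hx => ..⟩`: let `x = c₀ + c₁ t + c₂ t^2` be nilpotent. Then `x * y` is nilpotent for all `y` and its trace is
nilpotent in `k` (`Algebra.trace` of a nilpotent: `LinearMap.isNilpotent_trace_of_isNilpotent` or
`Algebra.isNilpotent_trace_of_isNilpotent`), so zero. With `y = 1, t, t^2`: `3 c₀ - 2 a c₂ = 0`, `-2 a c₁ - 3 b c₂ = 0`,
`-2 a c₀ - 3 b c₁ + 2 a^2 c₂ = 0` (coordinates of `x t`, `x t^2` above). Hence, with `d = 4 a^3 + 27 b^2`: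
`d c₂ = 0`, `d c₁ = 0`, `d c₀ = 0`: indeed with `e₁ = 3 c₀ - 2 a c₂`, `e₂ = -2 a c₁ - 3 b c₂`, `e₃ = -2 a c₀ - 3 b c₁ + 2 a^2 c₂`:
the `3 × 3` matrix of this system is minus the trace form matrix `((3,0,-2a),(0,-2a,-3b),(-2a,-3b,2a^2))` with determinant
`-12 a^3 - 27 b^2 + 8 a^3 = -(4 a^3 + 27 b^2)`, and multiplying by its adjugate gives
`-d c₀ = (-4a^3 - 9b^2) e₁ + 6 a b e₂ - 4 a^2 e₃`, `-d c₁ = 6 a b e₁ + 2 a^2 e₂ + 9 b e₃`, `-d c₂ = -4 a^2 e₁ + 9 b e₂ - 6 a e₃`
(check the exact coefficients with `linear_combination`; they are the cofactors). So `x = 0`.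
-/

set_option autoImplicit false

namespace H76PP

/-- `R = k[T] / (T^3 + a T + b)`. -/
structure CubA (k R : Type) [Field k] [CommRing R] [Algebra k R] (a b : k) (t : R) : Prop where
  root : t ^ 3 + algebraMap k R a * t + algebraMap k R b = 0
  sp : ∀ x : R, ∃ c₀ c₁ c₂ : k,
    x = algebraMap k R c₀ + algebraMap k R c₁ * t + algebraMap k R c₂ * t ^ 2
  rank : Module.finrank k R = 3

section

variable {k R : Type} [Field k] [CommRing R] [Algebra k R] {a b : k} {t : R}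

/-- The basis `1, t, t^2`. -/
noncomputable def CubA.basis (h : CubA k R a b t) : Module.Basis (Fin 3) k R :=
  basisOfTopLeSpanOfCardEqFinrank ![1, t, t ^ 2] (by
    intro x _
    obtain ⟨c₀, c₁, c₂, rfl⟩ := h.sp x
    have h0 : (1 : R) ∈ Submodule.span k (Set.range ![1, t, t ^ 2]) :=
      Submodule.subset_span ⟨0, rfl⟩
    have h1 : t ∈ Submodule.span k (Set.range ![1, t, t ^ 2]) :=
      Submodule.subset_span ⟨1, rfl⟩
    have h2 : t ^ 2 ∈ Submodule.span k (Set.range ![1, t, t ^ 2]) :=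
      Submodule.subset_span ⟨2, rfl⟩
    have e0 := Submodule.smul_mem _ c₀ h0
    have e1 := Submodule.smul_mem _ c₁ h1
    have e2 := Submodule.smul_mem _ c₂ h2
    rw [Algebra.smul_def] at e0 e1 e2
    rw [mul_one] at e0
    exact Submodule.add_mem _ (Submodule.add_mem _ e0 e1) e2) (by
    rw [h.rank, Fintype.card_fin])

lemma CubA.basis_coe (h : CubA k R a b t) : ⇑h.basis = ![1, t, t ^ 2] :=
  coe_basisOfTopLeSpanOfCardEqFinrank _ _ _

/-- The coordinates with respect to `1, t, t^2`. -/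
noncomputable def CubA.co (h : CubA k R a b t) (i : Fin 3) : R →ₗ[k] k := h.basis.coord i

lemma CubA.eq_co (h : CubA k R a b t) (x : R) :
    x = algebraMap k R (h.co 0 x) + algebraMap k R (h.co 1 x) * t +
      algebraMap k R (h.co 2 x) * t ^ 2 := by
  have h1 := h.basis.sum_repr x
  rw [Fin.sum_univ_three, h.basis_coe] at h1
  simp only [Matrix.cons_val_zero, Matrix.cons_val_one, Matrix.cons_val_two, Matrix.head_cons,
      Matrix.tail_cons, Algebra.smul_def, mul_one] at h1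
  exact h1.symm

lemma CubA.co_mk (h : CubA k R a b t) (c : Fin 3 → k) (i : Fin 3) :
    h.co i (algebraMap k R (c 0) + algebraMap k R (c 1) * t + algebraMap k R (c 2) * t ^ 2) =
      c i := by
  have h1 : algebraMap k R (c 0) + algebraMap k R (c 1) * t + algebraMap k R (c 2) * t ^ 2 =
      ∑ j, c j • h.basis j := by
    rw [Fin.sum_univ_three, h.basis_coe]
    simp only [Matrix.cons_val_zero, Matrix.cons_val_one, Matrix.cons_val_two, Matrix.head_cons,
      Matrix.tail_cons, Algebra.smul_def, mul_one]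
  rw [h1]
  show h.basis.repr (∑ j, c j • h.basis j) i = c i
  rw [h.basis.repr_sum_self]

lemma CubA.co_mk' (h : CubA k R a b t) (c₀ c₁ c₂ : k) :
    h.co 0 (algebraMap k R c₀ + algebraMap k R c₁ * t + algebraMap k R c₂ * t ^ 2) = c₀ ∧
    h.co 1 (algebraMap k R c₀ + algebraMap k R c₁ * t + algebraMap k R c₂ * t ^ 2) = c₁ ∧
    h.co 2 (algebraMap k R c₀ + algebraMap k R c₁ * t + algebraMap k R c₂ * t ^ 2) = c₂ :=
  ⟨h.co_mk ![c₀, c₁, c₂] 0, h.co_mk ![c₀, c₁, c₂] 1, h.co_mk ![c₀, c₁, c₂] 2⟩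

/-- The coordinates of a product. -/
theorem CubA.co_mul (h : CubA k R a b t) (x y : R) :
    h.co 0 (x * y) = h.co 0 x * h.co 0 y - b * (h.co 1 x * h.co 2 y + h.co 2 x * h.co 1 y) ∧
    h.co 1 (x * y) = h.co 0 x * h.co 1 y + h.co 1 x * h.co 0 y -
      a * (h.co 1 x * h.co 2 y + h.co 2 x * h.co 1 y) - b * (h.co 2 x * h.co 2 y) ∧
    h.co 2 (x * y) = h.co 0 x * h.co 2 y + h.co 1 x * h.co 1 y + h.co 2 x * h.co 0 y -
      a * (h.co 2 x * h.co 2 y) := by
  have hr := h.root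
  have e : x * y = algebraMap k R (h.co 0 x * h.co 0 y -
        b * (h.co 1 x * h.co 2 y + h.co 2 x * h.co 1 y)) +
      algebraMap k R (h.co 0 x * h.co 1 y + h.co 1 x * h.co 0 y -
        a * (h.co 1 x * h.co 2 y + h.co 2 x * h.co 1 y) - b * (h.co 2 x * h.co 2 y)) * t +
      algebraMap k R (h.co 0 x * h.co 2 y + h.co 1 x * h.co 1 y + h.co 2 x * h.co 0 y -
        a * (h.co 2 x * h.co 2 y)) * t ^ 2 := by
    conv_lhs => rw [h.eq_co x, h.eq_co y]
    simp only [map_add, map_sub, map_mul]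
    generalize algebraMap k R (h.co 0 x) = a0
    generalize algebraMap k R (h.co 1 x) = a1
    generalize algebraMap k R (h.co 2 x) = a2
    generalize algebraMap k R (h.co 0 y) = b0
    generalize algebraMap k R (h.co 1 y) = b1
    generalize algebraMap k R (h.co 2 y) = b2
    linear_combination (a1 * b2 + a2 * b1 + a2 * b2 * t) * hr
  have e2 := congrArg (fun z => (h.co 0 z, h.co 1 z, h.co 2 z)) e
  simp only [Prod.mk.injEq] at e2
  obtain ⟨i0, i1, i2⟩ := h.co_mk' (h.co 0 x * h.co 0 y -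
        b * (h.co 1 x * h.co 2 y + h.co 2 x * h.co 1 y))
      (h.co 0 x * h.co 1 y + h.co 1 x * h.co 0 y -
        a * (h.co 1 x * h.co 2 y + h.co 2 x * h.co 1 y) - b * (h.co 2 x * h.co 2 y))
      (h.co 0 x * h.co 2 y + h.co 1 x * h.co 1 y + h.co 2 x * h.co 0 y -
        a * (h.co 2 x * h.co 2 y))
  exact ⟨e2.1.trans i0, e2.2.1.trans i1, e2.2.2.trans i2⟩

lemma CubA.co_t (h : CubA k R a b t) : h.co 0 t = 0 ∧ h.co 1 t = 1 ∧ h.co 2 t = 0 := by
  have := h.co_mk' 0 1 0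
  simpa using this

lemma CubA.co_t_sq (h : CubA k R a b t) :
    h.co 0 (t ^ 2) = 0 ∧ h.co 1 (t ^ 2) = 0 ∧ h.co 2 (t ^ 2) = 1 := by
  have := h.co_mk' 0 0 1
  simpa using this

/-- The matrix of the multiplication by `x`. -/
theorem CubA.leftMul (h : CubA k R a b t) (x : R) : Algebra.leftMulMatrix h.basis x =
    !![h.co 0 x, -b * h.co 2 x, -b * h.co 1 x;
      h.co 1 x, h.co 0 x - a * h.co 2 x, -a * h.co 1 x - b * h.co 2 x;
      h.co 2 x, h.co 1 x, h.co 0 x - a * h.co 2 x] := by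
  have key : ∀ i j, Algebra.leftMulMatrix h.basis x i j = h.co i (x * h.basis j) := by
    intro i j
    rw [Algebra.leftMulMatrix_eq_repr_mul]
    rfl
  obtain ⟨a0, a1, a2⟩ := h.co_t
  obtain ⟨b0, b1, b2⟩ := h.co_t_sq
  obtain ⟨c0, c1, c2⟩ := h.co_mul x t
  obtain ⟨d0, d1, d2⟩ := h.co_mul x (t ^ 2)
  rw [a0, a1, a2] at c0 c1 c2
  rw [b0, b1, b2] at d0 d1 d2
  ext i j
  rw [key, h.basis_coe]
  fin_cases i <;> fin_cases j <;> simp [c0, c1, c2, d0, d1, d2]

theorem CubA.trace (h : CubA k R a b t) (x : R) :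
    Algebra.trace k R x = 3 * h.co 0 x - 2 * a * h.co 2 x := by
  rw [Algebra.trace_eq_matrix_trace h.basis, h.leftMul, Matrix.trace_fin_three]
  simp
  ring

theorem CubA.norm (h : CubA k R a b t) (x : R) :
    Algebra.norm k x = (!![h.co 0 x, -b * h.co 2 x, -b * h.co 1 x;
      h.co 1 x, h.co 0 x - a * h.co 2 x, -a * h.co 1 x - b * h.co 2 x;
      h.co 2 x, h.co 1 x, h.co 0 x - a * h.co 2 x]).det := by
  rw [Algebra.norm_eq_matrix_det h.basis, h.leftMul]

end

theorem alg_norm {k R : Type} [Field k] [CommRing R] [Algebra k R] {a b : k} {t : R}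
    (h : CubA k R a b t) (c₀ c₁ c₂ : k) :
    Algebra.norm k (algebraMap k R c₀ + algebraMap k R c₁ * t + algebraMap k R c₂ * t ^ 2) =
      (!![c₀, -b * c₂, -b * c₁; c₁, c₀ - a * c₂, -a * c₁ - b * c₂; c₂, c₁, c₀ - a * c₂]).det := by
  obtain ⟨e0, e1, e2⟩ := h.co_mk' c₀ c₁ c₂
  rw [h.norm, e0, e1, e2]

theorem alg_trace {k R : Type} [Field k] [CommRing R] [Algebra k R] {a b : k} {t : R}
    (h : CubA k R a b t) (c₀ c₁ c₂ : k) :
    Algebra.trace k R (algebraMap k R c₀ + algebraMap k R c₁ * t + algebraMap k R c₂ * t ^ 2) =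
      3 * c₀ - 2 * a * c₂ := by
  obtain ⟨e0, e1, e2⟩ := h.co_mk' c₀ c₁ c₂
  rw [h.trace, e0, e2]

theorem alg_red {k R : Type} [Field k] [CommRing R] [Algebra k R] {a b : k} {t : R}
    (h : CubA k R a b t) (hd : 4 * a ^ 3 + 27 * b ^ 2 ≠ 0) : IsReduced R := by
  refine ⟨fun x hx => ?_⟩
  have hn : ∀ y : R, Algebra.trace k R (x * y) = 0 := by
    intro y
    have h1 : IsNilpotent (x * y) := (Commute.all x y).isNilpotent_mul_right hx
    have h2 : IsNilpotent (LinearMap.mul k R (x * y)) := by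
      obtain ⟨n, hn⟩ := h1
      refine ⟨n, ?_⟩
      have h3 : (Algebra.lmul k R (x * y)) ^ n = 0 := by
        rw [← map_pow, hn, map_zero]
      exact h3
    exact (LinearMap.isNilpotent_trace_of_isNilpotent h2).eq_zero
  obtain ⟨a0, a1, a2⟩ := h.co_t
  obtain ⟨b0, b1, b2⟩ := h.co_t_sq
  obtain ⟨c0, c1, c2⟩ := h.co_mul x t
  obtain ⟨d0, d1, d2⟩ := h.co_mul x (t ^ 2)
  rw [a0, a1, a2] at c0 c1 c2
  rw [b0, b1, b2] at d0 d1 d2
  have e1 := hn 1
  have e2 := hn t
  have e3 := hn (t ^ 2)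
  rw [mul_one, h.trace] at e1
  rw [h.trace, c0, c2] at e2
  rw [h.trace, d0, d2] at e3
  have hx0 := h.eq_co x
  generalize h.co 0 x = u at *
  generalize h.co 1 x = v at *
  generalize h.co 2 x = w at *
  have f0 : (4 * a ^ 3 + 27 * b ^ 2) * u = 0 := by
    linear_combination (4 * a ^ 3 + 9 * b ^ 2) * e1 - 6 * a * b * e2 + 4 * a ^ 2 * e3
  have f1 : (4 * a ^ 3 + 27 * b ^ 2) * v = 0 := by
    linear_combination (-6) * a * b * e1 - 2 * a ^ 2 * e2 - 9 * b * e3
  have f2 : (4 * a ^ 3 + 27 * b ^ 2) * w = 0 := by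
    linear_combination 4 * a ^ 2 * e1 - 9 * b * e2 + 6 * a * e3
  have g0 := (mul_eq_zero.1 f0).resolve_left hd
  have g1 := (mul_eq_zero.1 f1).resolve_left hd
  have g2 := (mul_eq_zero.1 f2).resolve_left hd
  rw [hx0, g0, g1, g2]
  simp

end H76PP
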