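import Pool.Agent.H76.PP.Df1
import Pool.Agent.H76.PP.E0
import Pool.Agent.H76.PP.Ea
import Pool.Agent.H76.PP.Tf
import Pool.Agent.H38.T1.Ea
import Pool.Agent.H85.PP.Sa

/-!
ROW Sd (project MP_78d38b_PP, about 150 lines): denominators of coordinates, and the Legendre class of an integer. Use only the
STATEMENTS of the imported files (`Ea_cast`, `Ea_tr`, `theta_int`, `Tf_approx`).

PROOF. den_coord: copy from the proof of `int_coord` in `Pool/Agent/H76/PP/Ea.lean` (it does not use `hF` before the last step) the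
elements `E : 𝓞 K` with `E = -(h.co i x ^ 2 * dsc A B)`. Then `(dsc A B * h.co i x)^2 = dsc A B * (-E)` is integral, so
`dsc A B * h.co i x` is integral (`IsIntegral.of_pow` with exponent `2`), so it is the image of an element of `𝓞 K`
(`⟨_, hint⟩`; `IsIntegral ℤ`: elements of `𝓞 K` are `RingOfIntegers.isIntegral_coe`).
leg_res: `x ∉ w` means `w.valuation L x = 1` (`HeightOneSpectrum.valuation_eq_one_iff_notMem`). `H38T1.la_sc hw hx0`,
`H38RT.lam_unit` (in `Pool/Agent/H38/RT/Ta.lean`; needs no `Loc`): `la w (sc x) = if Sq (w.valuation L) x then 0 else 1`. Claim: `Sq (w.valuation L) x ↔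
IsSquare (mk x)`. If `mk x = mk s * mk s` (`Ideal.Quotient.mk_surjective`) then `x - s^2 ∈ w`, so `w.valuation (x - s^2) < 1`
(`HeightOneSpectrum.valuation_lt_one_iff_mem`). Conversely let `t : L` with `w.valuation (x - t^2) < 1`: then
`w.valuation (t^2) = 1` so `w.valuation t = 1`, by `Tf_approx` there is `s : 𝓞 L` with `w.valuation (t - s) < 1`, and
`x - s^2 = (x - t^2) + (t - s)(t + s)` has valuation `< 1`.
-/

set_option autoImplicit false
set_option linter.unusedSectionVars false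
open scoped Classical

open WithZero NumberField IsDedekindDomain H38RT
open H38T1 (SC sc scu rep eo la si Pri OddP tp unif)

namespace H76PP

variable {K L : Type} [Field K] [NumberField K] [Field L] [NumberField L] [Algebra K L]

theorem den_coord {A B : 𝓞 K} {θ : L} (h : Cub K L (A : K) (B : K) θ) (x : 𝓞 L) :
    ∃ c : Fin 3 → 𝓞 K, ∀ i, (c i : K) = (dsc A B : 𝓞 K) * h.co i (x : L) := by
  obtain ⟨t, ht⟩ := theta_int h
  obtain ⟨s, hs⟩ := Ea_tr (K := K) (x * x)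
  obtain ⟨t0, ht0⟩ := Ea_tr (K := K) x
  obtain ⟨t1, ht1⟩ := Ea_tr (K := K) (x * t)
  obtain ⟨t2, ht2⟩ := Ea_tr (K := K) (x * (t * t))
  have e1 : ((x * x : 𝓞 L) : L) = (x : L) * (x : L) := by push_cast; rfl
  have e2 : ((x * t : 𝓞 L) : L) = (x : L) * θ := by rw [← ht]; push_cast; rfl
  have e3 : ((x * (t * t) : 𝓞 L) : L) = (x : L) * θ ^ 2 := by
    rw [← ht, sq]
    push_cast
    rfl
  rw [e1, h.trace, (h.co_mul _ _).1, (h.co_mul _ _).2.2] at hs
  rw [h.trace] at ht0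
  rw [e2, h.trace, (h.co_mul _ _).1, (h.co_mul _ _).2.2, h.co_theta.1, h.co_theta.2.1,
    h.co_theta.2.2] at ht1
  rw [e3, h.trace, (h.co_mul _ _).1, (h.co_mul _ _).2.2, h.co_theta_sq.1, h.co_theta_sq.2.1,
    h.co_theta_sq.2.2] at ht2
  obtain ⟨a, ha⟩ : ∃ a, a = algebraMap (𝓞 K) K A := ⟨_, rfl⟩
  obtain ⟨b, hb⟩ : ∃ b, b = algebraMap (𝓞 K) K B := ⟨_, rfl⟩
  obtain ⟨c0, hc0⟩ : ∃ c0, c0 = h.co 0 (x : L) := ⟨_, rfl⟩
  obtain ⟨c1, hc1⟩ : ∃ c1, c1 = h.co 1 (x : L) := ⟨_, rfl⟩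
  obtain ⟨c2, hc2⟩ : ∃ c2, c2 = h.co 2 (x : L) := ⟨_, rfl⟩
  have hs' : algebraMap (𝓞 K) K s = 3 * (c0 * c0 - b * (c1 * c2 + c2 * c1)) -
      2 * a * (c0 * c2 + c1 * c1 + c2 * c0 - a * (c2 * c2)) := by
    rw [hc0, hc1, hc2, ha, hb]
    exact hs
  have ht0' : algebraMap (𝓞 K) K t0 = 3 * c0 - 2 * a * c2 := by
    rw [hc0, hc2, ha]
    exact ht0
  have ht1' : algebraMap (𝓞 K) K t1 = 3 * (c0 * 0 - b * (c1 * 0 + c2 * 1)) -
      2 * a * (c0 * 0 + c1 * 1 + c2 * 0 - a * (c2 * 0)) := by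
    rw [hc0, hc1, hc2, ha, hb]
    exact ht1
  have ht2' : algebraMap (𝓞 K) K t2 = 3 * (c0 * 0 - b * (c1 * 1 + c2 * 0)) -
      2 * a * (c0 * 1 + c1 * 0 + c2 * 0 - a * (c2 * 1)) := by
    rw [hc0, hc1, hc2, ha, hb]
    exact ht2
  have hd : ((dsc A B : 𝓞 K) : K) = 4 * a ^ 3 + 27 * b ^ 2 := by
    rw [ha, hb]
    exact Ea_cast A B
  have key0 : ∃ E : 𝓞 K, (E : K) = -(h.co 0 (x : L) ^ 2 * ((dsc A B : 𝓞 K) : K)) := by
    refine ⟨s * ((-2 * A) * (2 * A ^ 2) - 9 * B ^ 2) - t1 * (t1 * (2 * A ^ 2) + 3 * B * t2) +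
        t2 * (t1 * (-3 * B) + 2 * A * t2), ?_⟩
    rw [hd, ← hc0]
    show algebraMap (𝓞 K) K _ = _
    simp only [map_add, map_mul, map_sub, map_pow, map_neg, map_ofNat, hs', ht1', ht2', ← ha, ← hb]
    ring
  have key1 : ∃ E : 𝓞 K, (E : K) = -(h.co 1 (x : L) ^ 2 * ((dsc A B : 𝓞 K) : K)) := by
    refine ⟨3 * (s * (2 * A ^ 2) - t2 * t2) - t0 * (t0 * (2 * A ^ 2) + 2 * A * t2) +
        (-2 * A) * (t0 * t2 + 2 * A * s), ?_⟩
    rw [hd, ← hc1]
    show algebraMap (𝓞 K) K _ = _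
    simp only [map_add, map_mul, map_sub, map_pow, map_neg, map_ofNat, hs', ht0', ht2', ← ha, ← hb]
    ring
  have key2 : ∃ E : 𝓞 K, (E : K) = -(h.co 2 (x : L) ^ 2 * ((dsc A B : 𝓞 K) : K)) := by
    refine ⟨3 * (-2 * A * s - t1 * t1) + t0 * (2 * A * t0), ?_⟩
    rw [hd, ← hc2]
    show algebraMap (𝓞 K) K _ = _
    simp only [map_add, map_mul, map_sub, map_pow, map_neg, map_ofNat, hs', ht0', ht1', ← ha, ← hb]
    ring
  have key : ∀ i, ∃ E : 𝓞 K, (E : K) = -(h.co i (x : L) ^ 2 * ((dsc A B : 𝓞 K) : K)) := by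
    intro i
    fin_cases i
    · exact key0
    · exact key1
    · exact key2
  have hint : ∀ i, IsIntegral ℤ (((dsc A B : 𝓞 K) : K) * h.co i (x : L)) := by
    intro i
    obtain ⟨E, hE⟩ := key i
    refine IsIntegral.of_pow (n := 2) (by norm_num) ?_
    have e : (((dsc A B : 𝓞 K) : K) * h.co i (x : L)) ^ 2 = ((-(dsc A B * E) : 𝓞 K) : K) := by
      have e1 : ((-(dsc A B * E) : 𝓞 K) : K) = -(((dsc A B : 𝓞 K) : K) * (E : K)) := by
        show algebraMap (𝓞 K) K _ = _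
        rw [map_neg, map_mul]
      rw [e1, hE]
      ring
    rw [e]
    exact (-(dsc A B * E) : 𝓞 K).isIntegral_coe
  exact ⟨fun i => ⟨_, hint i⟩, fun i => rfl⟩

theorem leg_res {w : HeightOneSpectrum (𝓞 L)} (hw : OddP w) {x : 𝓞 L} (hx : x ∉ w.asIdeal) :
    la w (sc (x : L)) = leg (Ideal.Quotient.mk w.asIdeal x) := by
  have hmem : ∀ z : 𝓞 L, w.valuation L (z : L) < 1 ↔ z ∈ w.asIdeal :=
    fun z => w.valuation_lt_one_iff_mem z
  have hv : w.valuation L (x : L) = 1 :=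
    le_antisymm (w.valuation_le_one x) (not_lt.1 fun h => hx ((hmem x).1 h))
  have hx0 : (x : L) ≠ 0 := by
    intro h0
    rw [h0, map_zero] at hv
    exact zero_ne_one hv
  have hiff : Sq (w.valuation L) (x : L) ↔ IsSquare (Ideal.Quotient.mk w.asIdeal x) := by
    constructor
    · rintro ⟨t, ht⟩
      have ht2 : w.valuation L (t ^ 2) = 1 := by
        have e : t ^ 2 = (x : L) - ((x : L) - t ^ 2) := by ring
        rw [e, Valuation.map_sub_eq_of_lt_left _ (by rw [hv]; exact ht), hv]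
      rw [map_pow] at ht2
      have ht1 : w.valuation L t = 1 := (pow_eq_one_iff.1 ht2).resolve_right two_ne_zero
      obtain ⟨s, hs⟩ := Tf_approx w ht1.le
      have hs1 : w.valuation L (t + (s : L)) ≤ 1 :=
        Valuation.map_add_le _ ht1.le (w.valuation_le_one s)
      have h1 : w.valuation L ((x - s * s : 𝓞 L) : L) < 1 := by
        have e : ((x - s * s : 𝓞 L) : L) = ((x : L) - t ^ 2) + (t - (s : L)) * (t + (s : L)) := by
          show algebraMap (𝓞 L) L _ = _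
          rw [map_sub, map_mul]
          ring
        rw [e]
        refine Valuation.map_add_lt _ ht ?_
        rw [map_mul]
        exact mul_lt_one_of_nonneg_of_lt_one_left zero_le hs hs1
      rw [hmem, ← Ideal.Quotient.eq_zero_iff_mem, map_sub, map_mul, sub_eq_zero] at h1
      exact ⟨_, h1⟩
    · rintro ⟨r, hr⟩
      obtain ⟨s, rfl⟩ := Ideal.Quotient.mk_surjective r
      refine ⟨(s : L), ?_⟩
      have h1 : x - s * s ∈ w.asIdeal := by
        rw [← Ideal.Quotient.eq_zero_iff_mem, map_sub, map_mul, sub_eq_zero]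
        exact hr
      have e : (x : L) - (s : L) ^ 2 = ((x - s * s : 𝓞 L) : L) := by
        show _ = algebraMap (𝓞 L) L _
        rw [map_sub, map_mul]
        ring
      rw [e, hmem]
      exact h1
  rw [H38T1.la_sc hw hx0, lam_unit hv]
  unfold leg
  by_cases hsq : Sq (w.valuation L) (x : L)
  · rw [if_pos hsq, if_pos (hiff.1 hsq)]
  · rw [if_neg hsq, if_neg (fun h => hsq (hiff.2 h))]

end H76PP
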