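import Pool.Agent.H85.PP.Sc
import Pool.Agent.H85.PP.Sd

/-!
ROW Se (project MP_78d38b_PP, about 170 lines): the algebra `𝓞 L / v 𝓞 L` over `𝓞 K / v` for a prime `v` not dividing
`4 A^3 + 27 B^2`. Use only the STATEMENTS of the imported files (`den_coord`, `theta_int`, `Cub.norm`, `Cub.finrank`, `alg_norm`,
`alg_red`).

PROOF. `k = 𝓞 K ⧸ v.asIdeal` (field: instance in H76/PP/Df0.lean), `R = 𝓞 L ⧸ v.asIdeal.map (algebraMap (𝓞 K) (𝓞 L))` with the
`k`-algebra structure `Ideal.Quotient.algebraQuotientMapQuotient`; the map `algebraMap k R (mk c) = mk (algebraMap c)` is `rfl`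
(or `Ideal.Quotient.algebraMap_quotient_map_quotient`). `th : 𝓞 L` with `(th : L) = θ`.
cubA: root: `th^3 + A th + B = 0` in `𝓞 L` (`RingOfIntegers.ext`, `h.root`) and apply `mk`. sp: let `y : 𝓞 L`, `den_coord` gives `c` with
`c i = D co i y`, `D = dsc A B`; so `algebraMap D * y = c 0 + c 1 th + c 2 th^2` in `𝓞 L` (`Cub.eq_co`). `D ∉ v`, so `mk D ≠ 0` in the
field `k`; multiply by `algebraMap k R (mk D)⁻¹`. rank: `Module.finrank k R = Module.finrank K L = 3`: `Ideal.finrank_quotient_map v.asIdeal K L`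
(Mathlib.NumberTheory.RamificationInertia.Basic, deprecated but fine; or the recommended replacement) and `Cub.finrank`.
norm_mk: let `x : 𝓞 L`, `n : 𝓞 K` with `(n : K) = Algebra.norm K (x : L)`. With `c i = D co i x`: `Cub.norm` for `D x` (`map_smul`: `co i (D x) =
D co i x`; `Algebra.norm K (D x) = D^3 norm x` as `finrank = 3`, `Algebra.norm_algebraMap`) gives in `𝓞 K`:
`D^3 n = det !![c0, -B c2, -B c1; c1, c0 - A c2, -A c1 - B c2; c2, c1, c0 - A c2]` (expand with `Matrix.det_fin_three`, injectivity of `𝓞 K → K`).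
In `R`: `mk (D x) = c0 + c1 t + c2 t^2` so by `alg_norm` `norm (mk (D x))` is the same determinant modulo `v`, and
`norm_k (mk D • mk x) = (mk D)^3 norm_k (mk x)` (`Algebra.norm_algebraMap`, rank 3). Cancel `(mk D)^3 ≠ 0`.
-/

set_option autoImplicit false
set_option linter.unusedSectionVars false
open scoped Classical

open WithZero NumberField IsDedekindDomain H38RT
open H38T1 (SC sc scu rep eo la si Pri OddP tp unif)

namespace H76PP

variable {K L : Type} [Field K] [NumberField K] [Field L] [NumberField L] [Algebra K L]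

theorem Se_coe (a : 𝓞 K) :
    algebraMap (𝓞 L) L (algebraMap (𝓞 K) (𝓞 L) a) = algebraMap K L (a : K) := by
  rw [← IsScalarTower.algebraMap_apply (𝓞 K) (𝓞 L) L]
  exact IsScalarTower.algebraMap_apply (𝓞 K) K L a

theorem Se_eq {A B : 𝓞 K} {θ : L} (h : Cub K L (A : K) (B : K) θ) {t : 𝓞 L} (ht : (t : L) = θ)
    {y : 𝓞 L} {c : Fin 3 → 𝓞 K} (hc : ∀ i, (c i : K) = (dsc A B : 𝓞 K) * h.co i (y : L)) :
    algebraMap (𝓞 K) (𝓞 L) (dsc A B) * y = algebraMap (𝓞 K) (𝓞 L) (c 0) +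
      algebraMap (𝓞 K) (𝓞 L) (c 1) * t + algebraMap (𝓞 K) (𝓞 L) (c 2) * t ^ 2 := by
  have ht' : algebraMap (𝓞 L) L t = θ := ht
  apply RingOfIntegers.ext
  have e1 : algebraMap (𝓞 L) L (algebraMap (𝓞 K) (𝓞 L) (dsc A B) * y) =
      algebraMap K L ((dsc A B : 𝓞 K) : K) * (y : L) := by
    rw [map_mul, Se_coe]
  have e2 : algebraMap (𝓞 L) L (algebraMap (𝓞 K) (𝓞 L) (c 0) + algebraMap (𝓞 K) (𝓞 L) (c 1) * t +
      algebraMap (𝓞 K) (𝓞 L) (c 2) * t ^ 2) = algebraMap K L (c 0 : K) +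
      algebraMap K L (c 1 : K) * θ + algebraMap K L (c 2 : K) * θ ^ 2 := by
    rw [map_add, map_add, map_mul, map_mul, map_pow, Se_coe, Se_coe, Se_coe, ht']
  refine e1.trans (Eq.trans ?_ e2.symm)
  rw [hc 0, hc 1, hc 2, map_mul, map_mul, map_mul]
  conv_lhs => rw [h.eq_co (y : L)]
  ring

theorem Se_root {A B : 𝓞 K} {θ : L} (h : Cub K L (A : K) (B : K) θ) {t : 𝓞 L} (ht : (t : L) = θ) :
    t ^ 3 + algebraMap (𝓞 K) (𝓞 L) A * t + algebraMap (𝓞 K) (𝓞 L) B = 0 := by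
  have ht' : algebraMap (𝓞 L) L t = θ := ht
  apply RingOfIntegers.ext
  have e1 : algebraMap (𝓞 L) L (t ^ 3 + algebraMap (𝓞 K) (𝓞 L) A * t +
      algebraMap (𝓞 K) (𝓞 L) B) = 0 := by
    rw [map_add, map_add, map_mul, map_pow, Se_coe, Se_coe, ht']
    exact h.root
  exact e1.trans (map_zero _).symm

theorem Se_D {A B : 𝓞 K} {v : HeightOneSpectrum (𝓞 K)} (hd : dsc A B ∉ v.asIdeal) :
    (Ideal.Quotient.mk v.asIdeal (dsc A B) : 𝓞 K ⧸ v.asIdeal) ≠ 0 := by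
  intro h0
  exact hd (Ideal.Quotient.eq_zero_iff_mem.1 h0)

theorem cubA_res {A B : 𝓞 K} {θ : L} (h : Cub K L (A : K) (B : K) θ) {t : 𝓞 L} (ht : (t : L) = θ)
    {v : HeightOneSpectrum (𝓞 K)} (hd : dsc A B ∉ v.asIdeal) :
    CubA (𝓞 K ⧸ v.asIdeal) (𝓞 L ⧸ v.asIdeal.map (algebraMap (𝓞 K) (𝓞 L)))
      (Ideal.Quotient.mk v.asIdeal A) (Ideal.Quotient.mk v.asIdeal B)
      (Ideal.Quotient.mk (v.asIdeal.map (algebraMap (𝓞 K) (𝓞 L))) t) := by
  refine ⟨?_, ?_, ?_⟩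
  · have h1 := congrArg (Ideal.Quotient.mk (v.asIdeal.map (algebraMap (𝓞 K) (𝓞 L))))
      (Se_root h ht)
    rw [map_add, map_add, map_mul, map_pow, map_zero] at h1
    exact h1
  · intro x
    obtain ⟨y, rfl⟩ := Ideal.Quotient.mk_surjective x
    obtain ⟨c, hc⟩ := den_coord h y
    have h1 := congrArg (Ideal.Quotient.mk (v.asIdeal.map (algebraMap (𝓞 K) (𝓞 L))))
      (Se_eq h ht hc)
    rw [map_add, map_add, map_mul, map_mul, map_mul, map_pow] at h1
    have hD := Se_D hd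
    set D : 𝓞 K ⧸ v.asIdeal := Ideal.Quotient.mk v.asIdeal (dsc A B) with hDdef
    set f := algebraMap (𝓞 K ⧸ v.asIdeal) (𝓞 L ⧸ v.asIdeal.map (algebraMap (𝓞 K) (𝓞 L))) with hf
    have h2 : f D * Ideal.Quotient.mk (v.asIdeal.map (algebraMap (𝓞 K) (𝓞 L))) y =
        f (Ideal.Quotient.mk v.asIdeal (c 0)) + f (Ideal.Quotient.mk v.asIdeal (c 1)) *
          Ideal.Quotient.mk (v.asIdeal.map (algebraMap (𝓞 K) (𝓞 L))) t +
        f (Ideal.Quotient.mk v.asIdeal (c 2)) *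
          Ideal.Quotient.mk (v.asIdeal.map (algebraMap (𝓞 K) (𝓞 L))) t ^ 2 := h1
    have h3 : f D⁻¹ * f D = 1 := by rw [← map_mul, inv_mul_cancel₀ hD, map_one]
    refine ⟨D⁻¹ * Ideal.Quotient.mk v.asIdeal (c 0), D⁻¹ * Ideal.Quotient.mk v.asIdeal (c 1),
      D⁻¹ * Ideal.Quotient.mk v.asIdeal (c 2), ?_⟩
    rw [map_mul, map_mul, map_mul]
    linear_combination f D⁻¹ * h2 - Ideal.Quotient.mk (v.asIdeal.map (algebraMap (𝓞 K) (𝓞 L))) y * h3
  · rw [← h.finrank]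
    haveI := v.isMaximal
    exact Ideal.finrank_quotient_map v.asIdeal K L

theorem red_res {A B : 𝓞 K} {θ : L} (h : Cub K L (A : K) (B : K) θ)
    {v : HeightOneSpectrum (𝓞 K)} (hd : dsc A B ∉ v.asIdeal) :
    IsReduced (𝓞 L ⧸ v.asIdeal.map (algebraMap (𝓞 K) (𝓞 L))) := by
  obtain ⟨t, ht⟩ := theta_int h
  refine alg_red (cubA_res h ht hd) ?_
  intro h0
  refine Se_D hd ?_
  rw [← h0]
  unfold dsc
  rw [map_add, map_mul, map_mul, map_pow, map_pow, map_ofNat, map_ofNat]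

theorem norm_mk {A B : 𝓞 K} {θ : L} (h : Cub K L (A : K) (B : K) θ)
    {v : HeightOneSpectrum (𝓞 K)} (hd : dsc A B ∉ v.asIdeal) {x : 𝓞 L} {n : 𝓞 K}
    (hn : (n : K) = Algebra.norm K (x : L)) :
    Ideal.Quotient.mk v.asIdeal n = Algebra.norm (𝓞 K ⧸ v.asIdeal)
      (Ideal.Quotient.mk (v.asIdeal.map (algebraMap (𝓞 K) (𝓞 L))) x) := by
  obtain ⟨t, ht⟩ := theta_int h
  obtain ⟨c, hc⟩ := den_coord h x
  have hA := cubA_res h ht hd
  have hD := Se_D hd
  -- the identity in the integers of K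
  have e1 : dsc A B ^ 3 * n = (!![c 0, -B * c 2, -B * c 1; c 1, c 0 - A * c 2, -A * c 1 - B * c 2;
      c 2, c 1, c 0 - A * c 2]).det := by
    apply RingOfIntegers.ext
    have g1 : algebraMap (𝓞 K) K (dsc A B ^ 3 * n) = ((dsc A B : 𝓞 K) : K) ^ 3 * (n : K) := by
      rw [map_mul, map_pow]
    have c0 : algebraMap (𝓞 K) K (c 0) = ((dsc A B : 𝓞 K) : K) * h.co 0 (x : L) := hc 0
    have c1 : algebraMap (𝓞 K) K (c 1) = ((dsc A B : 𝓞 K) : K) * h.co 1 (x : L) := hc 1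
    have c2 : algebraMap (𝓞 K) K (c 2) = ((dsc A B : 𝓞 K) : K) * h.co 2 (x : L) := hc 2
    refine g1.trans ?_
    rw [hn, h.norm, Matrix.det_fin_three, Matrix.det_fin_three]
    simp only [Matrix.of_apply, Matrix.cons_val', Matrix.cons_val_zero, Matrix.cons_val_one,
      Matrix.cons_val_two, Matrix.head_cons, Matrix.tail_cons, Matrix.head_fin_const,
      Matrix.empty_val', Matrix.cons_val_fin_one]
    change _ = algebraMap (𝓞 K) K _
    simp only [map_add, map_sub, map_mul, map_neg, c0, c1, c2]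
    ring
  have h1 := congrArg (Ideal.Quotient.mk (v.asIdeal.map (algebraMap (𝓞 K) (𝓞 L))))
    (Se_eq h ht hc)
  rw [map_add, map_add, map_mul, map_mul, map_mul, map_pow] at h1
  set D : 𝓞 K ⧸ v.asIdeal := Ideal.Quotient.mk v.asIdeal (dsc A B) with hDdef
  set f := algebraMap (𝓞 K ⧸ v.asIdeal) (𝓞 L ⧸ v.asIdeal.map (algebraMap (𝓞 K) (𝓞 L))) with hf
  have h2 : f D * Ideal.Quotient.mk (v.asIdeal.map (algebraMap (𝓞 K) (𝓞 L))) x =
      f (Ideal.Quotient.mk v.asIdeal (c 0)) + f (Ideal.Quotient.mk v.asIdeal (c 1)) *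
        Ideal.Quotient.mk (v.asIdeal.map (algebraMap (𝓞 K) (𝓞 L))) t +
      f (Ideal.Quotient.mk v.asIdeal (c 2)) *
        Ideal.Quotient.mk (v.asIdeal.map (algebraMap (𝓞 K) (𝓞 L))) t ^ 2 := h1
  have h3 := congrArg (Algebra.norm (𝓞 K ⧸ v.asIdeal)) h2
  rw [alg_norm hA, map_mul, hf, Algebra.norm_algebraMap, hA.rank] at h3
  have h4 := congrArg (Ideal.Quotient.mk v.asIdeal) e1
  have h5 : D ^ 3 * Ideal.Quotient.mk v.asIdeal n = D ^ 3 * Algebra.norm (𝓞 K ⧸ v.asIdeal)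
      (Ideal.Quotient.mk (v.asIdeal.map (algebraMap (𝓞 K) (𝓞 L))) x) := by
    rw [h3]
    rw [map_mul, map_pow] at h4
    rw [h4, Matrix.det_fin_three, Matrix.det_fin_three]
    simp only [Matrix.of_apply, Matrix.cons_val', Matrix.cons_val_zero, Matrix.cons_val_one,
      Matrix.cons_val_two, Matrix.head_cons, Matrix.tail_cons, Matrix.head_fin_const,
      Matrix.empty_val', Matrix.cons_val_fin_one]
    simp only [map_add, map_sub, map_mul, map_neg]
  exact mul_left_cancel₀ (pow_ne_zero 3 hD) h5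

end H76PP
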