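import Pool.Agent.H85.PP.Sb
import Pool.Agent.H85.PP.Se
import Pool.Agent.H76.PP.Ta

/-!
ROW Sf (project MP_78d38b_PP, about 200 lines): the Legendre class of a norm at an unramified place. Use only the
STATEMENTS of the imported files (`leg_max`, `leg_equiv`, `red_res`, `norm_mk`, `leg_res`, `oddP_dn`, `fin_above`).

PROOF. `k = 𝓞 K ⧸ v.asIdeal`, `I = v.asIdeal.map (algebraMap (𝓞 K) (𝓞 L))`, `R = 𝓞 L ⧸ I`; `k` is finite (instance for number fields, or
`Ideal.finiteQuotientOfFreeOfNeBot`/`Ring.HasFiniteQuotients`; `v.ne_bot`), `R` is finite over `k` (a quotient of the finite `𝓞 K`-module `𝓞 L`;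
or from `Module.finrank k R = 3 ≠ 0`: `Module.finite_of_finrank_pos`), `2 ≠ 0` in `k` as `v` is odd: `v.valuation K 2 = 1` gives `(2 : 𝓞 K) ∉ v.asIdeal`.
places: the map `{w // dn K w = v} → MaximalSpectrum R`, `w ↦ w.asIdeal.map (Ideal.Quotient.mk I)` is a bijection with inverse
`M ↦ M.asIdeal.comap (Ideal.Quotient.mk I)`: `dn K w = v` iff `w.asIdeal.comap (algebraMap) = v.asIdeal` (`HeightOneSpectrum.ext_iff`) iff
`I ≤ w.asIdeal` (`Ideal.map_le_iff_le_comap`; `v.asIdeal` is maximal so `v.asIdeal ≤ w.asIdeal.comap _ ≠ ⊤` implies equality,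
`Ideal.IsMaximal.eq_of_le`). `Ideal.comap_map_of_surjective`, `Ideal.map_isMaximal..`: `Ideal.comap_isMaximal_of_surjective`,
`Ideal.map_eq_top_or_isMaximal_of_surjective`; a maximal ideal of `𝓞 L` containing `I ≠ ⊥` is nonzero (`I ≠ ⊥`: `Ideal.map_eq_bot_iff_of_injective`).
For `M` corresponding to `w`: `R ⧸ M ≃+* 𝓞 L ⧸ w.asIdeal` maps `mk (mk x)` to `mk x`
(`DoubleQuot.quotQuotEquivQuotOfLE (h : I ≤ J)` : `(A ⧸ I) ⧸ J.map (mk I) ≃+* A ⧸ J`, `DoubleQuot.quotQuotEquivQuotOfLE_quotQuotMk`), so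
`leg (mk M (mk I x)) = leg (mk w x)` by `leg_equiv` (or prove directly that `IsSquare` is equivalent on both sides).
`finsum_comp_equiv` / `finsum_eq_of_bijective` transport the finsum.
unit: `x ∉ w` for all `w` above `v` implies `mk I x` is a unit of `R`: otherwise it is contained in a maximal ideal
(`exists_max_ideal_of_mem_nonunits`), contradiction.
leg_above: `n = Algebra.intNorm`-like element: `Algebra.norm K (x : L)` is integral (`Algebra.isIntegral_norm`), so
there is `n : 𝓞 K`. `norm_mk` : `mk n = norm (mk I x)`, a unit of `k` (norm of a unit: `IsUnit.map`), so `n ∉ v`. `leg_max` gives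
`leg (mk n) = ∑ᶠ M, leg (mk M (mk I x)) = ∑ᶠ w, leg (mk w x) = ∑ᶠ w, la w (sc x)` (`leg_res`, `w` odd by `oddP_dn`), and
`la v (sc n) = leg (mk n)` by `leg_res` for `K`.
-/

set_option autoImplicit false
set_option linter.unusedSectionVars false
open scoped Classical

open WithZero NumberField IsDedekindDomain H38RT
open H38T1 (SC sc scu rep eo la si Pri OddP tp unif)

namespace H76PP

variable {K L : Type} [Field K] [NumberField K] [Field L] [NumberField L] [Algebra K L]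

private theorem Sf_leg {A R : Type} [CommRing A] [CommRing R] (f : A →+* R)
    (hf : Function.Surjective f) (M : Ideal R) (x : A) :
    leg (Ideal.Quotient.mk M (f x)) = leg (Ideal.Quotient.mk (M.comap f) x) := by
  have h : IsSquare (Ideal.Quotient.mk M (f x)) ↔ IsSquare (Ideal.Quotient.mk (M.comap f) x) := by
    constructor
    · rintro ⟨r, hr⟩
      obtain ⟨s, rfl⟩ := Ideal.Quotient.mk_surjective r
      obtain ⟨y, rfl⟩ := hf s
      refine ⟨Ideal.Quotient.mk _ y, ?_⟩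
      rw [← map_mul, Ideal.Quotient.eq] at hr ⊢
      rw [Ideal.mem_comap, map_sub, map_mul]
      exact hr
    · rintro ⟨r, hr⟩
      obtain ⟨y, rfl⟩ := Ideal.Quotient.mk_surjective r
      refine ⟨Ideal.Quotient.mk _ (f y), ?_⟩
      rw [← map_mul, Ideal.Quotient.eq] at hr ⊢
      rw [Ideal.mem_comap, map_sub, map_mul] at hr
      exact hr
  unfold leg
  by_cases h1 : IsSquare (Ideal.Quotient.mk M (f x))
  · rw [if_pos h1, if_pos (h.1 h1)]
  · rw [if_neg h1, if_neg (fun h2 => h1 (h.2 h2))]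

private theorem Sf_inj : Function.Injective (algebraMap (𝓞 K) (𝓞 L)) := by
  intro x y h
  have h1 : algebraMap K L (algebraMap (𝓞 K) K x) = algebraMap K L (algebraMap (𝓞 K) K y) := by
    have h2 : ∀ z : 𝓞 K, algebraMap K L (algebraMap (𝓞 K) K z) =
      algebraMap (𝓞 L) L (algebraMap (𝓞 K) (𝓞 L) z) := fun _ => rfl
    rw [h2, h2, h]
  exact RingOfIntegers.coe_injective ((algebraMap K L).injective h1)

private theorem Sf_dn {v : HeightOneSpectrum (𝓞 K)} (w : HeightOneSpectrum (𝓞 L)) :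
    dn K w = v ↔ v.asIdeal.map (algebraMap (𝓞 K) (𝓞 L)) ≤ w.asIdeal := by
  rw [Ideal.map_le_iff_le_comap]
  constructor
  · rintro rfl
    exact le_rfl
  · intro h
    apply HeightOneSpectrum.ext
    have h1 : (dn K w).asIdeal ≠ ⊤ := (dn K w).isPrime.ne_top
    exact (v.isMaximal.eq_of_le h1 h).symm

/-- The maximal ideals of `𝓞 L / v` are the places above `v`. -/
private theorem Sf_bij (v : HeightOneSpectrum (𝓞 K)) :
    ∃ e : MaximalSpectrum (𝓞 L ⧸ v.asIdeal.map (algebraMap (𝓞 K) (𝓞 L))) →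
      {w : HeightOneSpectrum (𝓞 L) // dn K w = v}, Function.Bijective e ∧
      ∀ M, (e M).1.asIdeal = M.asIdeal.comap
        (Ideal.Quotient.mk (v.asIdeal.map (algebraMap (𝓞 K) (𝓞 L)))) := by
  have hsurj : Function.Surjective
      (Ideal.Quotient.mk (v.asIdeal.map (algebraMap (𝓞 K) (𝓞 L)))) := Ideal.Quotient.mk_surjective
  have key : ∀ M : MaximalSpectrum (𝓞 L ⧸ v.asIdeal.map (algebraMap (𝓞 K) (𝓞 L))),
      ∃ w : {w : HeightOneSpectrum (𝓞 L) // dn K w = v}, w.1.asIdeal = M.asIdeal.comap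
        (Ideal.Quotient.mk (v.asIdeal.map (algebraMap (𝓞 K) (𝓞 L)))) := by
    intro M
    have hMp : M.asIdeal.IsPrime := M.isMaximal.isPrime
    have hle : v.asIdeal.map (algebraMap (𝓞 K) (𝓞 L)) ≤ M.asIdeal.comap
        (Ideal.Quotient.mk (v.asIdeal.map (algebraMap (𝓞 K) (𝓞 L)))) := by
      intro z hz
      rw [Ideal.mem_comap, Ideal.Quotient.eq_zero_iff_mem.2 hz]
      exact M.asIdeal.zero_mem
    have hne : M.asIdeal.comap
        (Ideal.Quotient.mk (v.asIdeal.map (algebraMap (𝓞 K) (𝓞 L)))) ≠ ⊥ := by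
      intro h0
      rw [h0, le_bot_iff, Ideal.map_eq_bot_iff_of_injective Sf_inj] at hle
      exact v.ne_bot hle
    exact ⟨⟨⟨_, hMp.comap _, hne⟩, (Sf_dn _).2 hle⟩, rfl⟩
  choose e he using key
  refine ⟨e, ⟨?_, ?_⟩, he⟩
  · intro M N hMN
    have h1 : M.asIdeal.comap (Ideal.Quotient.mk (v.asIdeal.map (algebraMap (𝓞 K) (𝓞 L)))) =
        N.asIdeal.comap (Ideal.Quotient.mk (v.asIdeal.map (algebraMap (𝓞 K) (𝓞 L)))) := by
      rw [← he M, ← he N, hMN]
    exact MaximalSpectrum.ext (Ideal.comap_injective_of_surjective _ hsurj h1)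
  · intro w
    have hwm : w.1.asIdeal.IsMaximal := w.1.isMaximal
    have hle := (Sf_dn (K := K) w.1).1 w.2
    have hcm : (w.1.asIdeal.map
        (Ideal.Quotient.mk (v.asIdeal.map (algebraMap (𝓞 K) (𝓞 L))))).comap
        (Ideal.Quotient.mk (v.asIdeal.map (algebraMap (𝓞 K) (𝓞 L)))) = w.1.asIdeal := by
      rw [Ideal.comap_map_of_surjective _ hsurj]
      have h1 : Ideal.comap (Ideal.Quotient.mk (v.asIdeal.map (algebraMap (𝓞 K) (𝓞 L)))) ⊥ =
          v.asIdeal.map (algebraMap (𝓞 K) (𝓞 L)) := by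
        ext z
        rw [Ideal.mem_comap, Ideal.mem_bot, Ideal.Quotient.eq_zero_iff_mem]
      rw [h1]
      exact sup_eq_left.2 hle
    have hmax : (w.1.asIdeal.map
        (Ideal.Quotient.mk (v.asIdeal.map (algebraMap (𝓞 K) (𝓞 L))))).IsMaximal := by
      rcases Ideal.map_eq_top_or_isMaximal_of_surjective _ hsurj hwm with h | h
      · exfalso
        rw [h, Ideal.comap_top] at hcm
        exact hwm.ne_top hcm.symm
      · exact h
    refine ⟨⟨_, hmax⟩, ?_⟩
    apply Subtype.ext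
    apply HeightOneSpectrum.ext
    rw [he]
    exact hcm

theorem leg_above {A B : 𝓞 K} {θ : L} (h : Cub K L (A : K) (B : K) θ)
    {v : HeightOneSpectrum (𝓞 K)} (hv : OddP v) (hd : dsc A B ∉ v.asIdeal) {x : 𝓞 L}
    (hx : ∀ w : HeightOneSpectrum (𝓞 L), dn K w = v → x ∉ w.asIdeal) :
    v.valuation K (Algebra.norm K (x : L)) = 1 ∧
      la v (sc (Algebra.norm K (x : L))) =
        ∑ᶠ w : {w : HeightOneSpectrum (𝓞 L) // dn K w = v}, la w.1 (sc (x : L)) := by
  obtain ⟨t, ht⟩ := theta_int h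
  have hred := red_res h hd
  have hfin : Finite (𝓞 K ⧸ v.asIdeal) := Ideal.finiteQuotientOfFreeOfNeBot _ v.ne_bot
  have hmf : Module.Finite (𝓞 K ⧸ v.asIdeal)
      (𝓞 L ⧸ v.asIdeal.map (algebraMap (𝓞 K) (𝓞 L))) :=
    Module.finite_of_finrank_pos (by rw [(cubA_res h ht hd).rank]; norm_num)
  have h2 : (2 : 𝓞 K ⧸ v.asIdeal) ≠ 0 := by
    intro h0
    have h1 : Ideal.Quotient.mk v.asIdeal (2 : 𝓞 K) = 0 := by
      rw [map_ofNat]
      exact h0
    rw [Ideal.Quotient.eq_zero_iff_mem] at h1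
    have h3 : v.valuation K (algebraMap (𝓞 K) K 2) < 1 :=
      (v.valuation_lt_one_iff_mem (K := K) (2 : 𝓞 K)).2 h1
    have h5 : algebraMap (𝓞 K) K 2 = 2 := map_ofNat (algebraMap (𝓞 K) K) 2
    rw [h5, hv] at h3
    exact lt_irrefl _ h3
  obtain ⟨e, hbij, he⟩ := Sf_bij (L := L) v
  -- `x` is a unit modulo `v`
  have hu : IsUnit (Ideal.Quotient.mk (v.asIdeal.map (algebraMap (𝓞 K) (𝓞 L))) x) := by
    by_contra hcon
    obtain ⟨M, hM, hxM⟩ := exists_max_ideal_of_mem_nonunits (mem_nonunits_iff.2 hcon)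
    refine hx (e ⟨M, hM⟩).1 (e ⟨M, hM⟩).2 ?_
    rw [he, Ideal.mem_comap]
    exact hxM
  obtain ⟨n, hn⟩ : ∃ n : 𝓞 K, (n : K) = Algebra.norm K (x : L) :=
    ⟨⟨_, Algebra.isIntegral_norm K x.isIntegral_coe⟩, rfl⟩
  have hnm := norm_mk h hd hn
  have hnv : n ∉ v.asIdeal := by
    intro h0
    have h1 : Ideal.Quotient.mk v.asIdeal n = 0 := Ideal.Quotient.eq_zero_iff_mem.2 h0
    have h3 : IsUnit (Algebra.norm (𝓞 K ⧸ v.asIdeal)
      (Ideal.Quotient.mk (v.asIdeal.map (algebraMap (𝓞 K) (𝓞 L))) x)) := hu.map _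
    rw [← hnm, h1] at h3
    exact not_isUnit_zero h3
  constructor
  · rw [← hn]
    exact (v.valuation_eq_one_iff_notMem (K := K)).2 hnv
  · rw [← hn, leg_res hv hnv, hnm, leg_max h2 hu,
      finsum_eq_of_bijective e hbij (g := fun w => leg (Ideal.Quotient.mk w.1.asIdeal x))]
    · refine finsum_congr fun w => ?_
      have hw : OddP w.1 := by
        rw [oddP_dn (K := K), w.2]
        exact hv
      exact (leg_res hw (hx w.1 w.2)).symm
    · intro M
      rw [he M]
      exact Sf_leg _ Ideal.Quotient.mk_surjective M.asIdeal x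

end H76PP
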