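import Pool.Agent.H85.PP.Se
import Pool.Agent.H76.PP.Ta

/-!
ROW Sg (project MP_78d38b_PP, about 110 lines): places not dividing `4 A^3 + 27 B^2` are unramified in `L`. Use only the
STATEMENTS of the imported files (`red_res`, `ord_dn`).

PROOF. `v = dn K w`, `I = v.asIdeal.map (algebraMap (𝓞 K) (𝓞 L))`. `ord_dn w` gives `e > 0` with `ord_w (algebraMap x) = e ord_v x`.
Suppose `e ≥ 2`. For `x ∈ v.asIdeal`, `x ≠ 0`: `ord_v x ≥ 1` so `ord_w x ≥ 2`, `algebraMap x ∈ w.asIdeal ^ 2`
(`HeightOneSpectrum.intValuation_le_pow_iff_mem`, `valuation_of_algebraMap`). So `I ≤ w.asIdeal ^ 2` (`Ideal.map_le_iff_le_comap`), i.e.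
`I = w.asIdeal^2 * J` (`Ideal.dvd_iff_le`). `(w.asIdeal * J)^2 = I * J ≤ I`. `R = 𝓞 L ⧸ I` is reduced (`red_res`), so for `y ∈ w.asIdeal * J`: `y^2 ∈
(w.asIdeal * J)^2 ≤ I`, `mk y` is nilpotent, `y ∈ I`. So `w.asIdeal * J ≤ I = w.asIdeal * (w.asIdeal * J)`, i.e. `w.asIdeal * (w.asIdeal * J) ∣ w.asIdeal * J`;
`I ≠ ⊥` so `w.asIdeal * J ≠ 0`, cancel: `w.asIdeal ∣ 1`, i.e. `w.asIdeal = ⊤`, contradiction (`w.isPrime.ne_top`). So `e = 1`.
-/

set_option autoImplicit false
set_option linter.unusedSectionVars false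
open scoped Classical

open WithZero NumberField IsDedekindDomain H38RT
open H38T1 (SC sc scu rep eo la si Pri OddP tp unif)

namespace H76PP

variable {K L : Type} [Field K] [NumberField K] [Field L] [NumberField L] [Algebra K L]

private theorem Sg_inj : Function.Injective (algebraMap (𝓞 K) (𝓞 L)) := by
  intro x y h
  have h1 : algebraMap K L (algebraMap (𝓞 K) K x) = algebraMap K L (algebraMap (𝓞 K) K y) := by
    show algebraMap (𝓞 L) L (algebraMap (𝓞 K) (𝓞 L) x) =
      algebraMap (𝓞 L) L (algebraMap (𝓞 K) (𝓞 L) y)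
    rw [h]
  exact RingOfIntegers.coe_injective ((algebraMap K L).injective h1)

private theorem Sg_eq {F : Type} [Field F] {V : Valuation F (WithZero (Multiplicative ℤ))} {x : F}
    (hx : x ≠ 0) : V x = exp (- ord V x) := by
  unfold ord
  rw [neg_neg, exp_log ((Valuation.ne_zero_iff V).2 hx)]

theorem ord_unr {A B : 𝓞 K} {θ : L} (h : Cub K L (A : K) (B : K) θ)
    {w : HeightOneSpectrum (𝓞 L)} (hd : dsc A B ∉ (dn K w).asIdeal) {x : K} (hx : x ≠ 0) :
    ord (w.valuation L) (algebraMap K L x) = ord ((dn K w).valuation K) x := by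
  obtain ⟨e, he, h1⟩ := ord_dn (K := K) w
  rw [h1 x hx]
  by_cases he2 : 2 ≤ e
  · exfalso
    obtain ⟨I, hI⟩ : ∃ I : Ideal (𝓞 L), I = (dn K w).asIdeal.map (algebraMap (𝓞 K) (𝓞 L)) :=
      ⟨_, rfl⟩
    have hIb : I ≠ 0 := by
      intro h0
      rw [hI] at h0
      exact (dn K w).ne_bot
        ((Ideal.map_eq_bot_iff_of_injective (Sg_inj (K := K) (L := L))).1 h0)
    have hI2 : I ≤ w.asIdeal ^ 2 := by
      rw [hI, Ideal.map_le_iff_le_comap]
      intro y hy
      rw [Ideal.mem_comap]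
      by_cases hy0 : y = 0
      · rw [hy0, map_zero]
        exact zero_mem _
      have hyK : algebraMap (𝓞 K) K y ≠ 0 := fun h0 => hy0
        (RingOfIntegers.coe_injective (by rw [h0, map_zero]))
      have h2 : (dn K w).valuation K (algebraMap (𝓞 K) K y) < 1 :=
        ((dn K w).valuation_lt_one_iff_mem (K := K) y).2 hy
      rw [Sg_eq (V := (dn K w).valuation K) hyK, ← exp_zero, exp_lt_exp] at h2
      have h3 := h1 _ hyK
      have hyL : algebraMap K L (algebraMap (𝓞 K) K y) ≠ 0 := fun h0 =>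
        hyK ((algebraMap K L).injective (by rw [h0, map_zero]))
      have h4 : w.valuation L (algebraMap (𝓞 L) L (algebraMap (𝓞 K) (𝓞 L) y)) ≤
          exp (-((2 : ℕ) : ℤ)) := by
        have h5 : w.valuation L (algebraMap K L (algebraMap (𝓞 K) K y)) ≤
            exp (-((2 : ℕ) : ℤ)) := by
          rw [Sg_eq (V := w.valuation L) hyL, exp_le_exp, h3]
          have he' : (2 : ℤ) ≤ e := by exact_mod_cast he2
          push_cast
          nlinarith
        exact h5
      rw [w.valuation_of_algebraMap] at h4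
      exact (w.intValuation_le_pow_iff_mem _ 2).1 h4
    obtain ⟨J, hJ⟩ := Ideal.dvd_iff_le.2 hI2
    have hred : IsReduced (𝓞 L ⧸ I) := by
      rw [hI]
      exact red_res h hd
    have hwJ : w.asIdeal * J ≤ I := by
      intro y hy
      have h3 : y ^ 2 ∈ I := by
        have h2 : (w.asIdeal * J) ^ 2 ≤ I := by
          have h6 : (w.asIdeal * J) ^ 2 = I * J := by
            rw [hJ]
            ring
          rw [h6]
          exact (Ideal.mul_le_inf (I := I) (J := J)).trans inf_le_left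
        exact h2 (Ideal.pow_mem_pow hy 2)
      have h4 : IsNilpotent (Ideal.Quotient.mk I y) :=
        ⟨2, by rw [← map_pow]; exact Ideal.Quotient.eq_zero_iff_mem.2 h3⟩
      exact Ideal.Quotient.eq_zero_iff_mem.1 (hred.eq_zero _ h4)
    have h5 : w.asIdeal * (w.asIdeal * J) ∣ 1 * (w.asIdeal * J) := by
      rw [one_mul, ← mul_assoc, ← pow_two, ← hJ]
      exact Ideal.dvd_iff_le.2 hwJ
    have h6 : w.asIdeal * J ≠ 0 := by
      intro h0
      apply hIb
      rw [hJ, pow_two, mul_assoc, h0, mul_zero]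
    have h7 : w.asIdeal ∣ 1 := (mul_dvd_mul_iff_right h6).1 h5
    exact w.isPrime.ne_top (Ideal.isUnit_iff.1 (isUnit_of_dvd_one h7))
  · have h2 : e = 1 := by omega
    rw [h2]
    simp

end H76PP
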