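import Pool.Agent.H38.T1.Ea
import Pool.Agent.H38.RT.Pr
import Pool.Agent.H38.RT.Rk

/-!
ROW Sh (project MP_78d38b_PP, about 150 lines): weak approximation with positivity. The files `Pool/Agent/H38/RT/Pr.lean` (`Pr_crt`, `Pr_app`,
`Pr_nat`, ..) and `Rk.lean` (`fin_bad`, `val_two_le`) may be used.

PROOF. `Pr_app S' x' N` (see its statement) gives for the finite set `S' = insert v S` and targets an element `c₁ : K` with
`v(c₁ - c) < v(c)` (so `v(c₁/c - 1) < 1`) and for `v' ∈ S`, `v' ≠ v`: `v'(c₁ - 1) ≤ min (exp (-1)) (v'(8))` [choose the exponent of the approximation larger than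
all the finitely many needed bounds]. It remains to make `c₁` positive at the real places: let `m = ∏` of enough: choose a natural number
`M > 0` with `v'(M) ≤ exp (-1) * min (v(c)) (v'(8)) ..` small for all `v' ∈ S'` [every `v'` contains a positive natural number
`p` (e.g. the absolute norm `Ideal.absNorm v'.asIdeal`, `Ideal.absNorm_mem`, nonzero), `v'(p) ≤ exp (-1)`; take `M = (∏ p_{v'})^N`].
Put `c' = c₁ + j M` with `j` a natural number larger than all `-s(c₁)` (`s : K →+* ℝ`, finitely many: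
`Fintype`/`Finite (K →+* ℝ)`), `j > 0`: `s(c') = s(c₁) + j M > 0` as `M ≥ 1`. For `v' ∈ S'`: `v'(c' - c₁) ≤ v'(M)` (`Pr_nat`: `v'(j) ≤ 1`) is small,
so the congruences are preserved (`Valuation.map_add`). `c' ≠ 0`: `v(c'/c - 1) < 1`. Write all bounds as `≤ exp (-N)` with one
`N : ℕ`: `H38RT.Pr_small : γ ≠ 0 → ∃ n : ℕ, exp (-n) < γ`, and take the maximum over `S'` (finite) of the `n` for
`γ = v'(8)`, `v(c)`, `exp (-1)`.
-/

set_option autoImplicit false
set_option linter.unusedSectionVars false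
open scoped Classical

open WithZero NumberField IsDedekindDomain H38RT
open H38T1 (SC sc scu rep eo la si Pri OddP tp unif)

namespace H76PP

lemma PPSSh_nat1 {K : Type} [Field K] [NumberField K] (v : HeightOneSpectrum (𝓞 K))
    {γ : WithZero (Multiplicative ℤ)} (hγ : γ ≠ 0) :
    ∃ n : ℕ, n ≠ 0 ∧ v.valuation K (n : K) < γ := by
  have hp0 : Ideal.absNorm v.asIdeal ≠ 0 := by
    rw [Ne, Ideal.absNorm_eq_zero_iff]
    exact v.ne_bot
  obtain ⟨N, hN⟩ := Pr_small hγ
  refine ⟨Ideal.absNorm v.asIdeal ^ N, pow_ne_zero _ hp0, ?_⟩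
  have h1 : v.intValuation ((Ideal.absNorm v.asIdeal : 𝓞 K) ^ N) ≤ exp (-(N : ℤ)) :=
    (v.intValuation_le_pow_iff_mem _ _).2 (Ideal.pow_mem_pow (Ideal.absNorm_mem v.asIdeal) N)
  have h2 : v.valuation K (algebraMap (𝓞 K) K ((Ideal.absNorm v.asIdeal : 𝓞 K) ^ N)) ≤
      exp (-(N : ℤ)) := by
    rw [HeightOneSpectrum.valuation_of_algebraMap]
    exact h1
  rw [map_pow, map_natCast] at h2
  push_cast
  exact h2.trans_lt hN

lemma PPSSh_nat {K : Type} [Field K] [NumberField K] (S : Finset (HeightOneSpectrum (𝓞 K)))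
    (γ : HeightOneSpectrum (𝓞 K) → WithZero (Multiplicative ℤ)) :
    (∀ v ∈ S, γ v ≠ 0) → ∃ n : ℕ, n ≠ 0 ∧ ∀ v ∈ S, v.valuation K (n : K) < γ v := by
  induction S using Finset.induction_on with
  | empty =>
    intro _
    exact ⟨1, one_ne_zero, fun v hv => absurd hv (Finset.notMem_empty v)⟩
  | insert a T ha ih =>
    intro h
    obtain ⟨n, hn0, hn⟩ := ih (fun v hv => h v (Finset.mem_insert_of_mem hv))
    obtain ⟨m, hm0, hm⟩ := PPSSh_nat1 a (h a (Finset.mem_insert_self a T))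
    refine ⟨m * n, mul_ne_zero hm0 hn0, fun v hv => ?_⟩
    have e : ((m * n : ℕ) : K) = (m : K) * (n : K) := by push_cast; ring
    rw [e, map_mul]
    rcases Finset.mem_insert.1 hv with rfl | hv
    · exact (mul_le_of_le_one_right' (Pr_nat v n)).trans_lt hm
    · exact (mul_le_of_le_one_left' (Pr_nat v m)).trans_lt (hn v hv)

lemma PPSSh_pos {K : Type} [Field K] [NumberField K] (y : K) {M : ℕ} (hM : M ≠ 0) :
    ∃ j : ℕ, ∀ s : K →+* ℝ, 0 < s (y + (j : K) * (M : K)) := by
  obtain ⟨B, hB⟩ := (Set.finite_range (fun s : K →+* ℝ => -s y)).bddAbove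
  obtain ⟨j, hj⟩ := exists_nat_gt B
  refine ⟨j, fun s => ?_⟩
  have h1 : -s y ≤ B := hB ⟨s, rfl⟩
  have h2 : (1 : ℝ) ≤ (M : ℝ) := by exact_mod_cast Nat.one_le_iff_ne_zero.2 hM
  have h3 : (0 : ℝ) ≤ (j : ℝ) := Nat.cast_nonneg j
  rw [map_add, map_mul, map_natCast, map_natCast]
  nlinarith

theorem approx_pos {K : Type} [Field K] [NumberField K] (v : HeightOneSpectrum (𝓞 K))
    (S : Finset (HeightOneSpectrum (𝓞 K))) {c : K} (hc : c ≠ 0) :
    ∃ c' : K, c' ≠ 0 ∧ v.valuation K (c' / c - 1) < 1 ∧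
      (∀ v' ∈ S, v' ≠ v → v'.valuation K (c' - 1) < 1 ∧
        v'.valuation K (c' - 1) ≤ v'.valuation K 8) ∧ ∀ s : K →+* ℝ, 0 < s c' := by
  have hvc : v.valuation K c ≠ 0 := (Valuation.ne_zero_iff _).2 hc
  obtain ⟨D, hD0, hD⟩ := PPSSh_nat1 v (inv_ne_zero hvc)
  have hDK : (D : K) ≠ 0 := Nat.cast_ne_zero.2 hD0
  have hDc : v.valuation K ((D : K) * c) ≤ 1 := by
    rw [map_mul]
    have := mul_le_mul_left hD.le (v.valuation K c)
    rwa [inv_mul_cancel₀ hvc] at this
  set x : HeightOneSpectrum (𝓞 K) → K := fun w => if w = v then (D : K) * c else (D : K) with hx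
  set γ : HeightOneSpectrum (𝓞 K) → WithZero (Multiplicative ℤ) :=
    fun w => if w = v then v.valuation K ((D : K) * c) else w.valuation K (8 * (D : K)) with hγ
  have hγ0 : ∀ w ∈ insert v S, γ w ≠ 0 := by
    intro w _
    rw [hγ]
    dsimp only
    split_ifs
    · exact (Valuation.ne_zero_iff _).2 (mul_ne_zero hDK hc)
    · exact (Valuation.ne_zero_iff _).2 (mul_ne_zero (by norm_num) hDK)
  obtain ⟨y, hy⟩ := Pr_app (insert v S) x (by
    intro w _
    rw [hx]
    dsimp only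
    split_ifs with h
    · rw [h]; exact hDc
    · exact Pr_nat w D) γ hγ0
  obtain ⟨M, hM0, hM⟩ := PPSSh_nat (insert v S) γ hγ0
  obtain ⟨j, hj⟩ := PPSSh_pos (y : K) hM0
  set y' : K := (y : K) + (j : K) * (M : K) with hy'
  have hyy : ∀ w ∈ insert v S, w.valuation K (y' - x w) < γ w := by
    intro w hw
    have e : y' - x w = ((y : K) - x w) + (j : K) * (M : K) := by rw [hy']; ring
    rw [e]
    refine (Valuation.map_add _ _ _).trans_lt (max_lt (hy w hw) ?_)
    rw [map_mul]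
    exact (mul_le_of_le_one_left' (Pr_nat w j)).trans_lt (hM w hw)
  have h1 : v.valuation K (y' / (D : K) / c - 1) < 1 := by
    have h := hyy v (Finset.mem_insert_self v S)
    rw [hx, hγ] at h
    dsimp only at h
    rw [if_pos rfl, if_pos rfl] at h
    have e : y' / (D : K) / c - 1 = (y' - (D : K) * c) / ((D : K) * c) := by
      field_simp
    rw [e, map_div₀]
    exact (div_lt_one₀ (zero_lt_iff.2 ((Valuation.ne_zero_iff _).2 (mul_ne_zero hDK hc)))).2 h
  refine ⟨y' / (D : K), ?_, h1, ?_, ?_⟩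
  · intro h0
    rw [h0, zero_div, zero_sub, Valuation.map_neg, map_one] at h1
    exact lt_irrefl _ h1
  · intro w hw hwv
    have h := hyy w (Finset.mem_insert_of_mem hw)
    rw [hx, hγ] at h
    dsimp only at h
    rw [if_neg hwv, if_neg hwv] at h
    have e : y' / (D : K) - 1 = (y' - (D : K)) / (D : K) := by
      field_simp
    have h2 : w.valuation K (y' / (D : K) - 1) < w.valuation K 8 := by
      rw [e, map_div₀]
      rw [map_mul] at h
      exact (div_lt_iff₀ (zero_lt_iff.2 ((Valuation.ne_zero_iff _).2 hDK))).2 h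
    have h8 : w.valuation K (8 : K) ≤ 1 := by
      have := Pr_nat w 8
      rwa [Nat.cast_ofNat] at this
    exact ⟨h2.trans_le h8, h2.le⟩
  · intro s
    rw [map_div₀, map_natCast]
    exact div_pos (hj s) (Nat.cast_pos.2 (Nat.pos_of_ne_zero hD0))

end H76PP
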