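import Pool.Agent.H76.PP.Df1
import Pool.Agent.H76.PP.Ta
import Pool.Agent.H38.T1.Ea

/-!
ROW Sn (project MP_78d38b_PP, about 90 lines): two lemmas for the projection formula. Use only the STATEMENTS of the imported files.

PROOF. near_tp: `w` odd, `w(g - 1) < 1`: `w(g) = 1` (`Valuation.map_one_add_of_lt`, `g = 1 + (g - 1)`), `g ≠ 0`, `eo w (sc g) = 0` (`H38T1.eo_sc`, the order is
zero), `la w (sc g) = 0` (`H38T1.la_sc`, `H38RT.lam_unit` in `Pool/Agent/H38/RT/Ta.lean`, `Sq` with the witness `1`), hence `tp w a (sc g) = 0` (unfold `tp`).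
(See also `Tg_ne`, `Tg_la` in `Pool/Agent/H76/PP/Tg.lean`.)
finsum_dn: with `s = hF.toFinset` both sides are `∑ w ∈ s, F w = ∑ v' ∈ s.image (dn K), ∑ w ∈ s with dn K w = v', F w`
(`Finset.sum_fiberwise_of_maps_to`, `finsum_eq_sum_of_support_subset`; for fixed `v'`: `∑ᶠ w : {w // dn K w = v'}, F w.1 =
∑ᶠ (w) (_ : dn K w = v'), F w` (`finsum_subtype_eq_finsum_mem`-like, `finsum_set_coe_eq_finsum_mem` for the set `{w | dn K w = v'}`) `=
∑ w ∈ s with dn K w = v', F w` (`finsum_mem_eq_sum_of_inter_support_eq` or `fin_above`)).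
-/

set_option autoImplicit false
set_option linter.unusedSectionVars false
open scoped Classical

open WithZero NumberField IsDedekindDomain H38RT
open H38T1 (SC sc scu rep eo la si Pri OddP tp unif)

namespace H76PP

variable {K L : Type} [Field K] [NumberField K] [Field L] [NumberField L] [Algebra K L]

theorem near_tp {w : HeightOneSpectrum (𝓞 K)} (hw : OddP w) {g : K}
    (hg : w.valuation K (g - 1) < 1) (a : SC K) : tp w a (sc g) = 0 := by
  have h1 : w.valuation K g = 1 := by
    have h2 : g = 1 + (g - 1) := by ring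
    rw [h2]
    exact (w.valuation K).map_one_add_of_lt hg
  have h0 : g ≠ 0 := by
    rintro rfl
    rw [map_zero] at h1
    exact zero_ne_one h1
  have h3 : eo w (sc g) = 0 := by
    rw [H38T1.eo_sc h0]
    have h5 : ord (w.valuation K) g = 0 := by
      unfold ord
      rw [h1, WithZero.log_one, neg_zero]
    rw [h5, Int.cast_zero]
  have h4 : la w (sc g) = 0 := by
    rw [H38T1.la_sc hw h0, lam_unit h1, if_pos]
    exact ⟨1, by rwa [one_pow]⟩
  unfold tp
  rw [h3, h4]
  ring

theorem finsum_dn (F : HeightOneSpectrum (𝓞 L) → ZMod 2) (hF : (Function.support F).Finite) :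
    ∑ᶠ w, F w = ∑ᶠ v : HeightOneSpectrum (𝓞 K),
      ∑ᶠ w : {w : HeightOneSpectrum (𝓞 L) // dn K w = v}, F w.1 := by
  have h1 : ∀ v : HeightOneSpectrum (𝓞 K),
      ∑ᶠ w : {w : HeightOneSpectrum (𝓞 L) // dn K w = v}, F w.1 =
        ∑ w ∈ hF.toFinset with dn K w = v, F w := by
    intro v
    have h2 : ∑ᶠ w : {w : HeightOneSpectrum (𝓞 L) // dn K w = v}, F w.1 =
        ∑ᶠ w ∈ {w : HeightOneSpectrum (𝓞 L) | dn K w = v}, F w :=
      finsum_set_coe_eq_finsum_mem {w : HeightOneSpectrum (𝓞 L) | dn K w = v}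
    rw [h2]
    apply finsum_mem_eq_sum_of_inter_support_eq
    ext w
    simp only [Set.mem_inter_iff, Set.mem_ofPred_eq, Finset.coe_filter, Set.Finite.mem_toFinset]
    tauto
  rw [finsum_congr h1]
  rw [finsum_eq_sum_of_support_subset (s := hF.toFinset) F (by simp)]
  rw [finsum_eq_sum_of_support_subset (s := hF.toFinset.image (dn K)) _ ?_]
  · exact (Finset.sum_fiberwise_of_maps_to (fun w hw => Finset.mem_image_of_mem _ hw) _).symm
  · intro v hv
    by_contra hcon
    apply hv
    apply Finset.sum_eq_zero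
    intro w hw
    rw [Finset.mem_filter] at hw
    refine absurd ?_ hcon
    rw [← hw.2]
    exact Finset.mem_coe.2 (Finset.mem_image_of_mem _ hw.1)

end H76PP
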