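import Pool.Agent.H85.PP.Re
import Pool.Agent.H85.PP.Sf
import Pool.Agent.H85.PP.Sg
import Pool.Agent.H85.PP.Sh
import Pool.Agent.H85.PP.Sn

/-!
ROW Si (project MP_78d38b_PP, about 180 lines): the projection formula for an integer `x` of `L`. Use only the STATEMENTS of the imported
files (`rec_tame`, `leg_above`, `ord_unr`, `approx_pos`, `near_tp`, `finsum_dn`, `oddP_dn`, `val_lt`, `val_one`, `val_le`, `ord_dn`, `fin_above`,
`fin_bad`).

PROOF. (0) `near_tp` (row Sn): if `w` is odd and `w(g - 1) < 1` then `tp w a (sc g) = 0` for all `a`.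
(1) `S` = finite set of places of `K`: the non-odd ones (`fin_bad two_ne_zero`, `v'.valuation K 2 ≠ 1`), those with `dsc A B ∈ v'.asIdeal`, i.e. `v'.valuation K (dsc A B) ≠ 1`
(`fin_bad`; `dsc A B ≠ 0` from `hd`, `Ea_cast`), and `dn K w` for the finitely many `w` with `w.valuation L x ≠ 1` (`fin_bad` in `L`).
(2) `c'` from `approx_pos v S hc`. `C' = algebraMap K L c'`.
(3) `F w = if OddP w then tp w (sc x) (sc C') else 0`, `G v' = if OddP v' then tp v' (sc N) (sc c') else 0`, `N = Algebra.norm K x`.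
`rec_tame` in `L` for `(x, C')`: at `w` with `w(2) < 1` (so `dn K w` is not odd, `dn K w ∈ S`, `dn K w ≠ v`): `m = 1`: `w(C' - 1) ≤ w(8)`: apply
`val_le` to `(c' - 1)/8` at `dn K w` (`8 ≠ 0`); positivity: for `s : L →+* ℝ` use `s.comp (algebraMap K L)`. So `∑ᶠ w, F w = 0`.
`rec_tame` in `K` for `(N, c')`: `∑ᶠ v', G v' = 0` (`N ≠ 0`: `Algebra.norm_ne_zero_iff`).
(4) grouping: `F` has finite support (outside the finite set of `w` with `w(x) ≠ 1` or `w(C') ≠ 1`, `fin_bad`, both `eo` vanish so `tp = 0`), and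
`∑ᶠ w, F w = ∑ᶠ v', ∑ᶠ w : {w // dn K w = v'}, F w` (`finsum_dn`, row Sn).
(5) For `v' ≠ v`: `∑ᶠ w | v', F w = G v'`:
 - `v'` not odd: all `w` above `v'` are not odd (`oddP_dn`): both are `0`.
 - `v' ∈ S`, odd: `v'(c' - 1) < 1`, so `w(C' - 1) < 1` (`val_lt`, `map_sub`, `map_one`) and both sides are `0` by (0).
 - `v' ∉ S`: `v'` odd, `dsc A B ∉ v'`, `w(x) = 1` for all `w` above `v'`, i.e. `x ∉ w`. `eo w (sc x) = 0`, `eo w (sc C') = eo v' (sc c')` by `ord_unr` and
   `H38T1.eo_sc`; so `tp w (sc x) (sc C') = eo v' (sc c') * la w (sc x)`. By `leg_above`: `eo v' (sc N) = 0` and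
   `∑ᶠ w, eo v' (sc c') * la w (sc x) = eo v' (sc c') * la v' (sc N)` (`mul_finsum'` or: the type `{w // dn K w = v'}` is finite by `fin_above`,
   `finsum_eq_sum_of_fintype`, `Finset.mul_sum`) `= tp v' (sc N) (sc c')`.
(6) So `0 = ∑ᶠ v', (∑ᶠ w | v', F w) - ∑ᶠ v', G v'` leaves only the term `v' = v`: with both families of finite support
(`finsum_sub_distrib`, `finsum_eq_single`): `∑ᶠ w | v, F w = G v`. `v` is odd (hv), the `w` above `v` are odd.
(7) at `w | v` : `C' = C * (C'/C)` with `w(C'/C - 1) < 1` (`val_lt` for `c'/c - 1`), `sc C' = sc C + sc (C'/C)` (`H38T1.sc_mul`), `H38T1.tp_comm`, `H38T1.tp_add_left`,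
(0): `tp w (sc x) (sc C') = tp w (sc x) (sc C)`; the same at `v` for `c'`, `c`.
-/

set_option autoImplicit false
set_option linter.unusedSectionVars false
open scoped Classical

open WithZero NumberField IsDedekindDomain H38RT
open H38T1 (SC sc scu rep eo la si Pri OddP tp unif)

namespace H76PP

variable {K L : Type} [Field K] [NumberField K] [Field L] [NumberField L] [Algebra K L]

private theorem Si_eo {F : Type} [Field F] [NumberField F] {w : HeightOneSpectrum (𝓞 F)} {x : F}
    (hx : x ≠ 0) (h : w.valuation F x = 1) : eo w (sc x) = 0 := by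
  rw [H38T1.eo_sc hx]
  unfold ord
  rw [h]
  simp

private theorem Si_tp {F : Type} [Field F] [NumberField F] {w : HeightOneSpectrum (𝓞 F)}
    {a b : SC F} (h : eo w a = 0) : tp w a b = eo w b * la w a := by
  unfold tp
  rw [h]
  ring

private theorem Si_shift {F : Type} [Field F] [NumberField F] {w : HeightOneSpectrum (𝓞 F)}
    (hw : OddP w) (a : SC F) {g g' : F} (hg : g ≠ 0) (hg' : g' ≠ 0)
    (h : w.valuation F (g' / g - 1) < 1) : tp w a (sc g') = tp w a (sc g) := by
  have h1 : g' = g * (g' / g) := by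
    field_simp
  have h2 : tp w a (sc (g' / g)) = 0 := near_tp hw h a
  conv_lhs => rw [h1, H38T1.sc_mul hg (div_ne_zero hg' hg), H38T1.tp_comm, H38T1.tp_add_left hw]
  rw [H38T1.tp_comm (sc g) a, H38T1.tp_comm (sc (g' / g)) a, h2, add_zero]

private theorem Si_notMem {F : Type} [Field F] [NumberField F] {w : HeightOneSpectrum (𝓞 F)}
    {x : 𝓞 F} (h : w.valuation F (x : F) = 1) : x ∉ w.asIdeal := by
  intro h1
  have h2 := (w.valuation_lt_one_iff_mem (K := F) x).2 h1
  exact absurd h2 (not_lt.2 (le_of_eq h.symm))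

private theorem Si_supp {F : Type} [Field F] [NumberField F] {x y : F} (hx : x ≠ 0) (hy : y ≠ 0) :
    (Function.support (fun w : HeightOneSpectrum (𝓞 F) =>
      (if OddP w then tp w (sc x) (sc y) else 0))).Finite := by
  refine ((fin_bad hx).union (fin_bad hy)).subset ?_
  intro w hw
  by_contra h
  rw [Set.mem_union, not_or] at h
  apply hw
  have h1 : w.valuation F x = 1 := by
    by_contra h3
    exact h.1 h3
  have h2 : w.valuation F y = 1 := by
    by_contra h3
    exact h.2 h3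
  have h3 : tp w (sc x) (sc y) = 0 := by
    rw [Si_tp (Si_eo hx h1), Si_eo hy h2, zero_mul]
  simp only [h3, ite_self]

private theorem Si_local {v' : HeightOneSpectrum (𝓞 K)} (hv' : OddP v') {x : 𝓞 L} (hx : x ≠ 0)
    {c : K} (hc : c ≠ 0) {A B : 𝓞 K} {θ : L} (h : Cub K L (A : K) (B : K) θ)
    (hd : dsc A B ∉ v'.asIdeal)
    (hw : ∀ w : HeightOneSpectrum (𝓞 L), dn K w = v' → w.valuation L (x : L) = 1) :
    ∑ᶠ w : {w : HeightOneSpectrum (𝓞 L) // dn K w = v'},
      tp w.1 (sc (x : L)) (sc (algebraMap K L c)) =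
        tp v' (sc (Algebra.norm K (x : L))) (sc c) := by
  have hxL : (x : L) ≠ 0 := by
    simpa using hx
  have hN : Algebra.norm K (x : L) ≠ 0 := by
    rw [Algebra.norm_ne_zero_iff]
    exact hxL
  obtain ⟨h1, h2⟩ := leg_above h hv' hd (x := x) (fun w hw' => Si_notMem (hw w hw'))
  have hCL : algebraMap K L c ≠ 0 := by
    rw [Ne, map_eq_zero]
    exact hc
  have h3 : ∀ w : {w : HeightOneSpectrum (𝓞 L) // dn K w = v'},
      tp w.1 (sc (x : L)) (sc (algebraMap K L c)) = eo v' (sc c) * la w.1 (sc (x : L)) := by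
    rintro ⟨w, rfl⟩
    rw [Si_tp (Si_eo hxL (hw w rfl)), H38T1.eo_sc hCL, H38T1.eo_sc hc, ord_unr h hd hc]
  rw [finsum_congr h3, ← mul_finsum, ← h2, Si_tp (Si_eo hN h1)]

theorem proj_int {v : HeightOneSpectrum (𝓞 K)} (hv : OddP v) {x : 𝓞 L} (hx : x ≠ 0) {c : K}
    (hc : c ≠ 0) {A B : 𝓞 K} {θ : L} (h : Cub K L (A : K) (B : K) θ)
    (hd : 4 * (A : K) ^ 3 + 27 * (B : K) ^ 2 ≠ 0) :
    ∑ᶠ w : {w : HeightOneSpectrum (𝓞 L) // dn K w = v},
      tp w.1 (sc (x : L)) (sc (algebraMap K L c)) =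
        tp v (sc (Algebra.norm K (x : L))) (sc c) := by
  have hxL : (x : L) ≠ 0 := by
    simpa using hx
  have hN : Algebra.norm K (x : L) ≠ 0 := by
    rw [Algebra.norm_ne_zero_iff]
    exact hxL
  have hdK : ((dsc A B : 𝓞 K) : K) ≠ 0 := by
    rw [Ea_cast]
    exact hd
  have h2K : (2 : K) ≠ 0 := two_ne_zero
  set S : Finset (HeightOneSpectrum (𝓞 K)) := (fin_bad h2K).toFinset ∪
    ((fin_bad hdK).toFinset ∪ (fin_bad hxL).toFinset.image (dn K)) with hS
  have hS2 : ∀ v' : HeightOneSpectrum (𝓞 K), v'.valuation K 2 ≠ 1 → v' ∈ S := by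
    intro v' h1
    rw [hS, Finset.mem_union, Set.Finite.mem_toFinset]
    exact Or.inl h1
  have hS3 : ∀ v' : HeightOneSpectrum (𝓞 K), v' ∉ S → dsc A B ∉ v'.asIdeal ∧
      ∀ w : HeightOneSpectrum (𝓞 L), dn K w = v' → w.valuation L (x : L) = 1 := by
    intro v' h1
    rw [hS, Finset.mem_union, Finset.mem_union, not_or, not_or] at h1
    refine ⟨Si_notMem ?_, ?_⟩
    · by_contra h2
      apply h1.2.1
      rw [Set.Finite.mem_toFinset]
      exact h2
    · intro w hw
      by_contra h2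
      apply h1.2.2
      rw [Finset.mem_image]
      refine ⟨w, ?_, hw⟩
      rw [Set.Finite.mem_toFinset]
      exact h2
  obtain ⟨c', hc', hcv, hcS, hcp⟩ := approx_pos v S hc
  have hCL : algebraMap K L c ≠ 0 := by
    rw [Ne, map_eq_zero]
    exact hc
  have hCL' : algebraMap K L c' ≠ 0 := by
    rw [Ne, map_eq_zero]
    exact hc'
  -- reciprocity in L
  have hrL := rec_tame (F := L) (x := (x : L)) (y := algebraMap K L c') hxL hCL' (by
    intro w hw
    have h1 : ¬ OddP (dn K w) := by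
      intro h1
      have h2 := oddP_dn.2 h1
      unfold OddP at h2
      rw [h2] at hw
      exact lt_irrefl _ hw
    have h2 : dn K w ≠ v := by
      intro h2
      rw [h2] at h1
      exact h1 hv
    obtain ⟨-, h3⟩ := hcS (dn K w) (hS2 _ h1) h2
    refine ⟨1, one_ne_zero, ?_⟩
    have h80 : (8 : K) ≠ 0 := by norm_num
    have h8 : (dn K w).valuation K 8 ≠ 0 := (Valuation.ne_zero_iff _).2 h80
    have h4 : (dn K w).valuation K ((c' - 1) / 8) ≤ 1 := by
      rw [map_div₀]
      exact div_le_one_of_le₀ h3 zero_le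
    have h5 := val_le h4
    have h80L : (8 : L) ≠ 0 := by norm_num
    have h6 : w.valuation L 8 ≠ 0 := (Valuation.ne_zero_iff _).2 h80L
    rw [map_div₀ (algebraMap K L), map_ofNat, map_sub, map_one, map_div₀,
      div_le_one₀ (zero_lt_iff.2 h6)] at h5
    rw [one_pow, mul_one]
    exact h5) (fun s => hcp (s.comp (algebraMap K L)))
  -- reciprocity in K
  have hrK := rec_tame (F := K) (x := Algebra.norm K (x : L)) (y := c') hN hc' (by
    intro v' hv'
    have h1 : v'.valuation K 2 ≠ 1 := hv'.ne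
    have h2 : v' ≠ v := by
      rintro rfl
      exact h1 hv
    refine ⟨1, one_ne_zero, ?_⟩
    rw [one_pow, mul_one]
    exact (hcS v' (hS2 _ h1) h2).2) hcp
  rw [finsum_dn (K := K) _ (Si_supp hxL hCL')] at hrL
  -- local identities away from v
  have hloc : ∀ v' : HeightOneSpectrum (𝓞 K), v' ≠ v →
      ∑ᶠ w : {w : HeightOneSpectrum (𝓞 L) // dn K w = v'},
        (if OddP w.1 then tp w.1 (sc (x : L)) (sc (algebraMap K L c')) else 0) =
      (if OddP v' then tp v' (sc (Algebra.norm K (x : L))) (sc c') else 0) := by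
    intro v' hv'
    by_cases ho : OddP v'
    · rw [if_pos ho]
      have ho' : ∀ w : {w : HeightOneSpectrum (𝓞 L) // dn K w = v'}, OddP w.1 := by
        rintro ⟨w, rfl⟩
        exact oddP_dn.2 ho
      rw [finsum_congr (fun w => if_pos (ho' w))]
      by_cases hs : v' ∈ S
      · obtain ⟨h1, -⟩ := hcS v' hs hv'
        rw [near_tp ho h1]
        refine (finsum_congr ?_).trans finsum_zero
        rintro ⟨w, rfl⟩
        refine near_tp (oddP_dn.2 ho) ?_ _
        have h2 := val_lt h1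
        rwa [map_sub, map_one] at h2
      · obtain ⟨h1, h2⟩ := hS3 v' hs
        exact Si_local ho hx hc' h h1 h2
    · rw [if_neg ho]
      refine (finsum_congr ?_).trans finsum_zero
      rintro ⟨w, rfl⟩
      refine if_neg ?_
      intro h1
      exact ho (oddP_dn.1 h1)
  have hsG : (Function.support (fun v' : HeightOneSpectrum (𝓞 K) =>
      (if OddP v' then tp v' (sc (Algebra.norm K (x : L))) (sc c') else 0))).Finite :=
    Si_supp hN hc'
  have hsF : (Function.support (fun v' : HeightOneSpectrum (𝓞 K) =>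
      ∑ᶠ w : {w : HeightOneSpectrum (𝓞 L) // dn K w = v'},
        (if OddP w.1 then tp w.1 (sc (x : L)) (sc (algebraMap K L c')) else 0))).Finite := by
    refine (hsG.union (Set.finite_singleton v)).subset ?_
    intro v' h1
    by_cases h2 : v' = v
    · exact Or.inr h2
    · refine Or.inl ?_
      rw [Function.mem_support] at h1 ⊢
      rwa [hloc v' h2] at h1
  have hdiff := finsum_sub_distrib hsF hsG
  rw [hrL, hrK, sub_zero, finsum_eq_single _ v (fun v' h1 => by
    rw [hloc v' h1, sub_self])] at hdiff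
  rw [sub_eq_zero, if_pos hv] at hdiff
  rw [← Si_shift hv _ hc hc' hcv, ← hdiff]
  refine finsum_congr ?_
  rintro ⟨w, rfl⟩
  have hwo : OddP w := oddP_dn.2 hv
  rw [if_pos hwo]
  refine (Si_shift hwo _ hCL hCL' ?_).symm
  have h2 := val_lt hcv
  rwa [map_sub, map_one, map_div₀] at h2

end H76PP
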